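import Pool.Agent.Y493.Br.Stm

set_option autoImplicit false

namespace Y493.Br

/-- JOB BR-G1a.  Smooth distinct eigenvalues near a point where the trace of the cube has nonzero
derivative. -/
def StG1a : Prop :=
  ∀ (U : Set E3) (f ν : E3 → E5) (S : E3 → Matrix (Fin 3) (Fin 3) ℝ) (c : ℝ),
    Hyp U f ν S c → ∀ x0 ∈ U,
    fderiv ℝ (fun x => Matrix.trace (S x * S x * S x)) x0 ≠ 0 →
    ∃ (V : Set E3) (lam : Fin 3 → E3 → ℝ),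
      IsOpen V ∧ x0 ∈ V ∧ V ⊆ U ∧
      (∀ i j, ContDiffOn ℝ ((⊤ : ℕ∞) : WithTop ℕ∞) (fun x => S x i j) V) ∧
      (∀ i, ContDiffOn ℝ ((⊤ : ℕ∞) : WithTop ℕ∞) (lam i) V) ∧
      (∀ x ∈ V, lam 2 x < lam 1 x) ∧ (∀ x ∈ V, lam 1 x < lam 0 x) ∧
      (∀ x ∈ V, lam 0 x + lam 1 x + lam 2 x = 0) ∧
      (∀ x ∈ V, lam 0 x ^ 2 + lam 1 x ^ 2 + lam 2 x ^ 2 = c) ∧
      (∀ x ∈ V, ∀ i, Matrix.det (S x - lam i x • (1 : Matrix (Fin 3) (Fin 3) ℝ)) = 0) ∧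
      (∀ x ∈ V, (S x - lam 0 x • (1 : Matrix (Fin 3) (Fin 3) ℝ)) *
        (S x - lam 1 x • (1 : Matrix (Fin 3) (Fin 3) ℝ)) *
        (S x - lam 2 x • (1 : Matrix (Fin 3) (Fin 3) ℝ)) = 0) ∧
      (∀ x ∈ V, Matrix.trace (S x * S x * S x) = lam 0 x ^ 3 + lam 1 x ^ 3 + lam 2 x ^ 3)

/-- JOB BR-G1b.  From the smooth distinct eigenvalues to the principal frame. -/
def StG1b : Prop := StG1a → StG1

end Y493.Br
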