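import Mathlib

set_option autoImplicit false

/-!
Reflection for differential polynomial identities.  Coefficients are integer polynomials in one
distinguished element `r` (dense lists, low degree first), monomials are ascending lists of
variable indices (with repetition), polynomials are lists of terms in descending lexicographic
order (soundness never uses the order).
-/

namespace Y493.Br.Refl

abbrev Cf := List Int
abbrev Mo := List Nat
abbrev Po := List (Mo × Cf)

/-! coefficient polynomials -/

def cadd : Cf → Cf → Cf
  | [], b => b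
  | x :: a, [] => x :: a
  | x :: a, y :: b => (x + y) :: cadd a b

def csmul (n : Int) : Cf → Cf
  | [] => []
  | x :: a => (n * x) :: csmul n a

def cmul : Cf → Cf → Cf
  | [], _ => []
  | [x], b => csmul x b
  | x :: a, b => cadd (csmul x b) (0 :: cmul a b)

def cderAux : Nat → Cf → Cf
  | _, [] => []
  | n, x :: a => ((n : Int) * x) :: cderAux (n + 1) a

def cder : Cf → Cf
  | [] => []
  | _ :: a => cderAux 1 a

def cisz : Cf → Bool
  | [] => true
  | x :: a => match x with
    | Int.ofNat 0 => cisz a
    | _ => false

/-! monomials -/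

/-- lexicographic comparison of exponent vectors: 0 equal, 1 first bigger, 2 first smaller -/
def mcmp : Mo → Mo → Nat
  | [], [] => 0
  | [], _ :: _ => 2
  | _ :: _, [] => 1
  | x :: a, y :: b => bif Nat.beq x y then mcmp a b else bif Nat.ble x y then 1 else 2

def mmulAux (x : Nat) (xs : Mo) (f : Mo → Mo) : Mo → Mo
  | [] => x :: xs
  | y :: b => bif Nat.ble x y then x :: f (y :: b) else y :: mmulAux x xs f b

def mmul : Mo → Mo → Mo
  | [] => fun b => b
  | x :: a => mmulAux x a (mmul a)

/-- the terms (multiplicity, variable, monomial with one copy removed) -/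
def parts : Mo → List (Nat × Nat × Mo)
  | [] => []
  | x :: m => match parts m with
    | [] => [(1, x, m)]
    | (k, y, q) :: l =>
      bif Nat.beq x y then (k + 1, y, x :: q) :: l.map (fun t => (t.1, t.2.1, x :: t.2.2))
      else (1, x, m) :: (k, y, x :: q) :: l.map (fun t => (t.1, t.2.1, x :: t.2.2))

/-! polynomials -/

def paddAux (m : Mo) (c : Cf) (P : Po) (f : Po → Po) : Po → Po
  | [] => (m, c) :: P
  | t :: Q => match mcmp m t.1 with
    | 0 => (m, cadd c t.2) :: f Q
    | 1 => (m, c) :: f (t :: Q)
    | _ => t :: paddAux m c P f Q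

def padd : Po → Po → Po
  | [] => fun Q => Q
  | (m, c) :: P => paddAux m c P (padd P)

/-- multiplication by a term -/
def ptmul (m : Mo) (c : Cf) : Po → Po
  | [] => []
  | t :: P => (mmul m t.1, cmul c t.2) :: ptmul m c P

def pmul : Po → Po → Po
  | [], _ => []
  | (m, c) :: P, Q => padd (ptmul m c Q) (pmul P Q)

def pcmul (c : Cf) : Po → Po
  | [] => []
  | t :: P => (t.1, cmul c t.2) :: pcmul c P

def pneg (P : Po) : Po := pcmul [-1] P

def psub (P Q : Po) : Po := padd P (pneg Q)

/-- derivative of a monomial times a coefficient: sum over the parts -/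
def mder (dv : Nat → Po) (c : Cf) : List (Nat × Nat × Mo) → Po
  | [] => []
  | (k, x, m) :: l => padd (ptmul m (csmul (k : Int) c) (dv x)) (mder dv c l)

/-- total derivative, `dr` the derivative of `r`, `dv i` the derivative of variable `i` -/
def pder (dr : Po) (dv : Nat → Po) : Po → Po
  | [] => []
  | (m, c) :: P =>
    padd (padd (ptmul m (cder c) dr) (mder dv c (parts m))) (pder dr dv P)

def pisz : Po → Bool
  | [] => true
  | t :: P => cisz t.2 && pisz P

/-- are two polynomials equal (as polynomials) -/
def peq (P Q : Po) : Bool := pisz (psub P Q)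

/-- multiplication by a power of a coefficient polynomial -/
def cpow (c : Cf) : Nat → Cf
  | 0 => [1]
  | n + 1 => cmul c (cpow c n)

section sem
variable {A : Type} [CommRing A]

/-! semantics -/

def cev (r : A) : Cf → A
  | [] => 0
  | x :: a => (x : A) + r * cev r a

def mev (v : Nat → A) : Mo → A
  | [] => 1
  | x :: m => v x * mev v m

def pev (r : A) (v : Nat → A) : Po → A
  | [] => 0
  | t :: P => cev r t.2 * mev v t.1 + pev r v P

end sem

/-- JOB BR-L1: soundness of the reflection -/
def StL1 : Prop :=
  (∀ (A : Type) [CommRing A] (r : A) (v : Nat → A) (P Q : Po),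
    pev r v (padd P Q) = pev r v P + pev r v Q ∧
    pev r v (pmul P Q) = pev r v P * pev r v Q ∧
    pev r v (psub P Q) = pev r v P - pev r v Q ∧
    (pisz P = true → pev r v P = 0) ∧
    (peq P Q = true → pev r v P = pev r v Q)) ∧
  (∀ (A : Type) [CommRing A] (r : A) (v : Nat → A) (P : Po) (m : Mo) (c : Cf),
    pev r v (ptmul m c P) = cev r c * mev v m * pev r v P ∧
    pev r v (pcmul c P) = cev r c * pev r v P) ∧
  (∀ (A : Type) [CommRing A] (r : A) (a b : Cf) (n : Nat),
    cev r (cadd a b) = cev r a + cev r b ∧ cev r (cmul a b) = cev r a * cev r b ∧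
    cev r (cpow a n) = cev r a ^ n) ∧
  (∀ (A : Type) [CommRing A] (D : Derivation ℤ A A) (r : A) (v : Nat → A) (dr : Po)
    (dv : Nat → Po) (P : Po), D r = pev r v dr → (∀ i, D (v i) = pev r v (dv i)) →
    D (pev r v P) = pev r v (pder dr dv P))

end Y493.Br.Refl
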