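import Pool.Agent.Y493.Br.Stm
import Pool.Agent.Y493.Br.Refl

set_option autoImplicit false

/-!
The normalised differential system.  `r` is the scale free parameter, `e l` are the frame
derivations divided by half of the difference of the extreme principal curvatures.
-/

namespace Y493.Br

/-- Normalised system of a minimal hypersurface with constant scalar curvature.  Variables:
`K` the (scaled) ambient curvature, `u`, `t` the first covariant derivative of the second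
fundamental form, `Y` the free part of the second covariant derivative. -/
structure Sys (A : Type) [CommRing A] where
  e : Fin 3 → Derivation ℤ A A
  r : A
  K : A
  u : A
  t : Fin 3 → A
  Y : Fin 4 → A
  unit1 : IsUnit (1 + r)
  unit3 : IsUnit (1 - r)
  unitN : ∀ n : ℕ, 0 < n → IsUnit (n : A)
  er : ∀ l, e l r = -(3 + r ^ 2) * t l
  eK : ∀ l, e l K = -2 * r * t l * K
  et00 : 18 * (1 + r) * (1 - r) * e 0 (t 0) = (9 - 9 * r - 9 * r ^ 2 + 9 * r ^ 3) * K + (-9 + 18 * r - 9 * r ^ 2) * u ^ 2 + (72 + 36 * r + 36 * r ^ 3) * t 0 ^ 2 + (63 + 81 * r + 45 * r ^ 2 + 27 * r ^ 3) * t 1 ^ 2 + (9 + 9 * r - 9 * r ^ 2 - 9 * r ^ 3) * t 2 ^ 2 + (18 + 18 * r - 18 * r ^ 2 - 18 * r ^ 3) * Y 0 + (6 * r - 8 * r ^ 2 - 4 * r ^ 3 + 8 * r ^ 4 - 2 * r ^ 5)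
  et10 : 2 * (1 - r) * e 1 (t 0) = (1 - r) * u * t 2 + (-4 - 2 * r + 2 * r ^ 2) * t 0 * t 1 + (2 - 2 * r) * Y 3
  et20 : 2 * (1 - r) * e 2 (t 0) = 2 * u * t 1 + (1 - 4 * r + 3 * r ^ 2) * t 0 * t 2 + (2 - 2 * r) * Y 2
  et01 : (1 + r) * (1 - r) * e 0 (t 1) = (1 - r) * u * t 2 + (-1 - 3 * r - r ^ 2 + r ^ 3) * t 0 * t 1 + (1 - r ^ 2) * Y 3
  et11 : (1 + r) * (1 - r) * e 1 (t 1) = (2 + 2 * r) * t 0 ^ 2 + (-r + r ^ 3) * t 1 ^ 2 + (-2 + 2 * r) * t 2 ^ 2 + (-2 + 2 * r ^ 2) * Y 0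
  et21 : (1 + r) * (1 - r) * e 2 (t 1) = (-1 - r) * u * t 0 + (1 - 3 * r + r ^ 2 + r ^ 3) * t 1 * t 2 + (1 - r ^ 2) * Y 1
  et02 : 2 * (1 + r) * e 0 (t 2) = (-2) * u * t 1 + (-1 - 4 * r - 3 * r ^ 2) * t 0 * t 2 + (2 + 2 * r) * Y 2
  et12 : 2 * (1 + r) * e 1 (t 2) = (-1 - r) * u * t 0 + (4 - 2 * r - 2 * r ^ 2) * t 1 * t 2 + (2 + 2 * r) * Y 1
  et22 : 18 * (1 + r) * (1 - r) * e 2 (t 2) = (-9 - 9 * r + 9 * r ^ 2 + 9 * r ^ 3) * K + (9 + 18 * r + 9 * r ^ 2) * u ^ 2 + (-9 + 9 * r + 9 * r ^ 2 - 9 * r ^ 3) * t 0 ^ 2 + (-63 + 81 * r - 45 * r ^ 2 + 27 * r ^ 3) * t 1 ^ 2 + (-72 + 36 * r + 36 * r ^ 3) * t 2 ^ 2 + (18 - 18 * r - 18 * r ^ 2 + 18 * r ^ 3) * Y 0 + (6 * r + 8 * r ^ 2 - 4 * r ^ 3 - 8 * r ^ 4 - 2 * r ^ 5)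
  eu0 : (1 + r) * (1 - r) * e 0 u = (6 - r + 2 * r ^ 2 + r ^ 3) * u * t 0 + (-6 - 7 * r - 3 * r ^ 2 - r ^ 3 + r ^ 4) * t 1 * t 2 + (1 + r - r ^ 2 - r ^ 3) * Y 1
  eu1 : (1 + r) * (1 - r) * e 1 u = (5 * r + 3 * r ^ 3) * u * t 1 + (14 * r + 2 * r ^ 3) * t 0 * t 2 + (-2 + 2 * r ^ 2) * Y 2
  eu2 : (1 + r) * (1 - r) * e 2 u = (-6 - r - 2 * r ^ 2 + r ^ 3) * u * t 2 + (6 - 7 * r + 3 * r ^ 2 - r ^ 3 - r ^ 4) * t 0 * t 1 + (1 - r - r ^ 2 + r ^ 3) * Y 3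
  frel : (54 + 18 * r ^ 2) * K + 54 * u ^ 2 + (144 - 36 * r + 36 * r ^ 2) * t 0 ^ 2 + (90 + 54 * r ^ 2) * t 1 ^ 2 + (144 + 36 * r + 36 * r ^ 2) * t 2 ^ 2 + (-36 - 24 * r ^ 2 - 4 * r ^ 4) = 0
  tors01 : ∀ g : A, 2 * (1 + r) * (1 - r) * (e 0 (e 1 g) - e 1 (e 0 g)) = ((-2 - 2 * r - 2 * r ^ 2 - 2 * r ^ 3) * t 1) * e 0 g + ((4 + 2 * r + 2 * r ^ 3) * t 0) * e 1 g + ((1 - 2 * r + r ^ 2) * u) * e 2 g
  tors12 : ∀ g : A, 2 * (1 + r) * (1 - r) * (e 1 (e 2 g) - e 2 (e 1 g)) = ((1 + 2 * r + r ^ 2) * u) * e 0 g + ((4 - 2 * r - 2 * r ^ 3) * t 2) * e 1 g + ((-2 + 2 * r - 2 * r ^ 2 + 2 * r ^ 3) * t 1) * e 2 g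
  tors20 : ∀ g : A, 2 * (1 + r) * (1 - r) * (e 2 (e 0 g) - e 0 (e 2 g)) = ((1 - r - r ^ 2 + r ^ 3) * t 2) * e 0 g + (4 * u) * e 1 g + ((1 + r - r ^ 2 - r ^ 3) * t 0) * e 2 g


/-- JOB BR-L2.  From the geometric differential algebra to the normalised system. -/
def StL2 : Prop :=
  ∀ (A : Type) [CommRing A] [Algebra ℝ A] (D : DA A) (ev : A →ₐ[ℝ] ℝ),
    ev (D.lam 2) < ev (D.lam 1) → ev (D.lam 1) < ev (D.lam 0) →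
    ∃ (T : Sys A), 0 < ev T.K ∧ -1 < ev T.r ∧ ev T.r < 1 ∧
      (0 < ev (D.lam 1) → 0 < ev T.r) ∧
      (∀ k, ev (T.t k) = 0 → ev (D.e k (D.lam 1)) = 0)

/-- THE REMAINING ALGEBRAIC THEOREM (owner, by reflection and certificates). -/
def StB : Prop :=
  ∀ (A : Type) [CommRing A] (T : Sys A) (ev : A →+* ℝ),
    0 < ev T.K → 0 < ev T.r → ev T.r < 1 → ∀ k, ev (T.t k) = 0

end Y493.Br
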