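import Pool.Agent.Y493.Br.Cn
import Pool.Agent.Y167.BR.L2
import Pool.Agent.Y167.BR.G1a
import Pool.Agent.Y563.BR.G1b
import Pool.Agent.Y978.BR.G2
import Pool.Agent.Y681.BR.G3
import Pool.Agent.Y463.BR.G4

set_option autoImplicit false

/-!
The local Chern conjecture in the four sphere.
-/

namespace Y493.Br

/-- the algebraic main theorem -/
theorem stA : StA := by
  intro A _ _ D ev h21 h10 h1 k
  obtain ⟨T, hK, hr1, hr2, hr3, hr4⟩ := Pool.Agent.Y167.BR.l2 A D ev h21 h10
  refine hr4 k ?_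
  have h := Glue.stB A T (ev : A →+* ℝ) hK (hr3 h1) hr2 k
  exact h

end Y493.Br
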