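import Pool.Agent.Y493.Br.Pk

set_option autoImplicit false

/-!
Positivity certificates on an interval.
-/

namespace Y493.Br.Cert

open Y493.Br.Refl Y493.Br.Pk

/-! ### change of the parameter `q r = C + H tau` -/

/-- `q ^ D * c(r)` as a polynomial in `tau` (for `c.length ≤ D + 1`) -/
def shC (C H : Int) (q : Nat) : Nat → Cf → Cf
  | _, [] => []
  | D, x :: a => cadd [Int.mul (Int.ofNat (q ^ D)) x] (cmul [C, H] (shC C H q (D - 1) a))

def shP (C H : Int) (q D : Nat) : Po → Po
  | [] => []
  | t :: P => (t.1, shC C H q D t.2) :: shP C H q D P

def lenOk (D : Nat) : Po → Bool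
  | [] => true
  | t :: P => Nat.ble t.2.length (D + 1) && lenOk D P

def eqC : Cf → Cf → Bool
  | [], [] => true
  | x :: a, y :: b => (match Int.sub x y with
    | Int.ofNat n => Nat.beq n 0
    | Int.negSucc _ => false) && eqC a b
  | _, _ => false

def eqM : Mo → Mo → Bool
  | [], [] => true
  | x :: a, y :: b => Nat.beq x y && eqM a b
  | _, _ => false

def eqP : Po → Po → Bool
  | [], [] => true
  | s :: P, t :: Q => eqM s.1 t.1 && (eqC s.2 t.2 && eqP P Q)
  | _, _ => false

/-- `P'` is the shifted version of `P` -/
def shOk (C H : Int) (q D : Nat) (P P' : Po) : Bool :=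
  lenOk D P && eqP (shP C H q D P) P'

/-! ### quadratic forms -/

/-- a block: weight `K` (variable 0) or 1, basis, upper triangular rows of the Gram matrix
(row `i` has the entries `j = i, i+1, ...`), entries are polynomials in `tau` -/
structure Blk where
  wK : Bool
  basis : List Po
  mat : List (List Cf)

/-- sum over `j` of `2 * Q_ij * v_j`, first entry (the diagonal one) not doubled -/
def rowTail : List Cf → List Po → Ex
  | c :: cs, p :: ps => .add (.mul (.lit [([], csmul 2 c)]) (.lit p)) (rowTail cs ps)
  | _, _ => .lit []

def rowEx (cs : List Cf) (ps : List Po) : Ex := match cs, ps with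
  | c :: cs, p :: ps =>
    .mul (.lit p) (.add (.mul (.lit [([], c)]) (.lit p)) (rowTail cs ps))
  | _, _ => .lit []

def quadEx : List (List Cf) → List Po → Ex
  | row :: rows, p :: ps => .add (rowEx row (p :: ps)) (quadEx rows ps)
  | _, _ => .lit []

def Blk.ex (b : Blk) : Ex :=
  bif b.wK then .mul (.lit [([0], [1])]) (quadEx b.mat b.basis) else quadEx b.mat b.basis

def blksEx : List Blk → Ex
  | [] => .lit []
  | b :: l => .add b.ex (blksEx l)

/-- combination of the vanishing polynomials: factor, multiplier, polynomial -/
def combEx : List (Po × Po × Po) → Ex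
  | [] => .lit []
  | t :: l => .add (.mul (.lit t.1) (.mul (.lit t.2.1) (.lit t.2.2))) (combEx l)

/-- the identity: `comb = c * K * g ^ 2 + sum of the blocks` -/
def idEx (comb : List (Po × Po × Po)) (c : Nat) (g : Po) (bs : List Blk) : Ex :=
  .sub (combEx comb)
    (.add (.mul (.lit [([0], [Int.ofNat (c + 1)])]) (.mul (.lit g) (.lit g))) (blksEx bs))

/-! ### positive semidefiniteness of polynomial matrices for `-1 ≤ tau ≤ 1` -/

/-- coefficient `k` of a list -/
def cf (k : Nat) (c : Cf) : Int := c.getD k 0

/-- sum of the absolute values from degree 5 on -/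
def tailAbs (c : Cf) : Nat := nrmC (c.drop 5)

/-- the five Bernstein coefficients (times 16) of the part of degree at most 4, `e` is subtracted
from the constant coefficient: list indexed by the power of `1 + tau` -/
def bern (i : Nat) (c : Cf) (e : Nat) : Int :=
  let a0 := Int.sub (cf 0 c) (Int.ofNat e)
  let a1 := cf 1 c
  let a2 := cf 2 c
  let a3 := cf 3 c
  let a4 := cf 4 c
  match i with
  | 0 => a0 - a1 + a2 - a3 + a4
  | 1 => 4 * a0 - 2 * a1 + 2 * a3 - 4 * a4
  | 2 => 6 * a0 - 2 * a2 + 6 * a4
  | 3 => 4 * a0 + 2 * a1 - 2 * a3 - 4 * a4
  | _ => a0 + a1 + a2 + a3 + a4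

/-- sums of the tails of the off diagonal entries, added to both indices; the diagonal entry
contributes its own tail; result: list of error bounds per index -/
def addErr : List Nat → List Cf → List Nat
  | e :: es, c :: cs => Nat.add e (tailAbs c) :: addErr es cs
  | es, _ => es

def rowErr (cs : List Cf) : Nat := match cs with
  | [] => 0
  | c :: cs => Nat.add (tailAbs c) (rowErr cs)

def errs : List (List Cf) → List Nat
  | [] => []
  | row :: rows => match row with
    | [] => 0 :: errs rows
    | _ :: cs => rowErr row :: addErr (errs rows) cs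

def bernRow (i : Nat) (row : List Cf) (e : Nat) : List Int := match row with
  | [] => []
  | c :: cs => bern i c e :: cs.map (fun d => bern i d 0)

def bernMat (i : Nat) : List (List Cf) → List Nat → List (List Int)
  | row :: rows, e :: es => bernRow i row e :: bernMat i rows es
  | _, _ => []

/-- one row of the Bareiss step: entries `(a * M - b * b') / p`, with check of divisibility -/
def barRow (p a b : Int) : List Int → List Int → Option (List Int)
  | m :: ms, c :: cs =>
    let s := Int.sub (Int.mul a m) (Int.mul b c)
    let t := Int.tdiv s p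
    match Int.sub (Int.mul p t) s with
    | Int.ofNat n => bif Nat.beq n 0 then (match barRow p a b ms cs with
        | some l => some (t :: l)
        | none => none) else none
    | Int.negSucc _ => none
  | [], [] => some []
  | _, _ => none

def barRows (p a : Int) : List (List Int) → List Int → Option (List (List Int))
  | row :: rows, b :: bs => match barRow p a b row (b :: bs) with
    | some l => (match barRows p a rows bs with
      | some ls => some (l :: ls)
      | none => none)
    | none => none
  | [], [] => some []
  | _, _ => none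

/-- fraction free elimination, `fuel` at least the size, `p` the previous pivot -/
def psd : Nat → Int → List (List Int) → Bool
  | _, _, [] => true
  | 0, _, _ :: _ => false
  | f + 1, p, row :: rows => match row with
    | [] => false
    | a :: bs => match a with
      | Int.ofNat n => bif Nat.beq n 0 then false else
          (match barRows p a rows bs with
          | some M => psd f a M
          | none => false)
      | Int.negSucc _ => false

/-- shape: `n` rows of lengths `n, n-1, ..., 1` -/
def shape : Nat → List (List Cf) → Bool
  | 0, [] => true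
  | n + 1, row :: rows => Nat.beq row.length (n + 1) && shape n rows
  | _, _ => false

def Blk.psd (b : Blk) : Bool :=
  shape b.basis.length b.mat &&
  (let es := errs b.mat
   Cert.psd 20 1 (bernMat 0 b.mat es) && (Cert.psd 20 1 (bernMat 1 b.mat es) &&
   (Cert.psd 20 1 (bernMat 2 b.mat es) && (Cert.psd 20 1 (bernMat 3 b.mat es) &&
   Cert.psd 20 1 (bernMat 4 b.mat es)))))

def psdAll : List Blk → Bool
  | [] => true
  | b :: l => b.psd && psdAll l

/-- JOB BR-L5: soundness of certificates -/
def StL5 : Prop :=
  StL3 →
  -- change of parameter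
  (∀ (C H : Int) (q D : Nat) (P P' : Po), shOk C H q D P P' = true →
    ∀ (r tau : ℝ) (v : Nat → ℝ), (q : ℝ) * r = (C : ℝ) + (H : ℝ) * tau →
      (q : ℝ) ^ D * pev r v P = pev tau v P') ∧
  -- the certificate
  (∀ (comb : List (Po × Po × Po)) (c : Nat) (g : Po) (bs : List Blk),
    (idEx comb c g bs).isZero = true → psdAll bs = true →
    ∀ (tau : ℝ) (v : Nat → ℝ), -1 ≤ tau → tau ≤ 1 → 0 < v 0 →
      (∀ t ∈ comb, pev tau v t.2.2 = 0) → pev tau v g = 0)

end Y493.Br.Cert
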