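import Pool.Agent.Y493.Br.Gl2
import Pool.Agent.Y493.Br.I01
import Pool.Agent.Y493.Br.I02
import Pool.Agent.Y493.Br.I03
import Pool.Agent.Y493.Br.I04
import Pool.Agent.Y493.Br.I05
import Pool.Agent.Y493.Br.I06
import Pool.Agent.Y493.Br.I07
import Pool.Agent.Y493.Br.I08
import Pool.Agent.Y493.Br.I09
import Pool.Agent.Y493.Br.I10
import Pool.Agent.Y493.Br.I11
import Pool.Agent.Y493.Br.I12
import Pool.Agent.Y493.Br.I13
import Pool.Agent.Y493.Br.J1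
import Pool.Agent.Y493.Br.J2
import Pool.Agent.Y493.Br.J3

set_option autoImplicit false
set_option maxRecDepth 100000

/-!
Conclusion on the intervals, the algebraic theorem.
-/

namespace Y493.Br.Glue

open Y493.Br.Refl Y493.Br.Pk Y493.Br.Jet Y493.Br.Cert

/-- all derived polynomials vanish -/
structure AllZ (r : ℝ) (w : Nat → ℝ) : Prop where
  zWtt : pev r w Dat.nWtt = 0
  zDa2 : pev r w Dat.nDa2 = 0
  zX1 : pev r w Dat.nX1 = 0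
  zX2 : pev r w Dat.nX2 = 0
  zX3 : pev r w Dat.nX3 = 0
  zRt : pev r w Dat.nRt = 0
  zRa : pev r w Dat.nRa = 0
  zE1 : pev r w Dat.nE1 = 0
  zE2 : pev r w Dat.nE2 = 0
  zE3 : pev r w Dat.nE3 = 0
  zF : pev r w Dat.nF = 0

structure AllY (r : ℝ) (w : Nat → ℝ) : Prop where
  zRt : pev r w Dat2.nRt = 0
  zRa : pev r w Dat2.nRa = 0
  zE1 : pev r w Dat2.nE1 = 0
  zE2 : pev r w Dat2.nE2 = 0
  zE3 : pev r w Dat2.nE3 = 0
  zF : pev r w Dat.nF = 0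

theorem cI01 (r : ℝ) (w : Nat → ℝ) (hw : 0 < w 0) (hA : (0 : ℝ) ≤ 32 * r) (hB : 32 * r ≤ (2 : ℝ)) (h0 : 0 < r)
    (z : AllZ r w) : False := by
  have h := fin I01.ident I01.allpsd 1 1 32 (by norm_num) (by norm_num) r w hw
    (by push_cast; linarith) (by push_cast; linarith)
    (List.forall_mem_cons.2 ⟨⟨_, _, I01.shWtt, z.zWtt⟩,
      List.forall_mem_cons.2 ⟨⟨_, _, I01.shDa2, z.zDa2⟩,
      List.forall_mem_cons.2 ⟨⟨_, _, I01.shX1, z.zX1⟩,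
      List.forall_mem_cons.2 ⟨⟨_, _, I01.shX2, z.zX2⟩,
      List.forall_mem_cons.2 ⟨⟨_, _, I01.shX3, z.zX3⟩,
      List.forall_mem_cons.2 ⟨⟨_, _, I01.shRt, z.zRt⟩,
      List.forall_mem_cons.2 ⟨⟨_, _, I01.shRa, z.zRa⟩,
      List.forall_mem_cons.2 ⟨⟨_, _, I01.shE1, z.zE1⟩,
      List.forall_mem_cons.2 ⟨⟨_, _, I01.shE2, z.zE2⟩,
      List.forall_mem_cons.2 ⟨⟨_, _, I01.shE3, z.zE3⟩,
      List.forall_mem_cons.2 ⟨⟨_, _, I01.shF, z.zF⟩,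
      List.forall_mem_nil _⟩⟩⟩⟩⟩⟩⟩⟩⟩⟩⟩)
  rw [show I01.g = [([], [1, 1])] from rfl] at h
  simp only [pev, cev, mev] at h
  push_cast at h
  linarith

theorem cI02 (r : ℝ) (w : Nat → ℝ) (hw : 0 < w 0) (hA : (2 : ℝ) ≤ 32 * r) (hB : 32 * r ≤ (4 : ℝ))
    (z : AllZ r w) : False := by
  have h := fin I02.ident I02.allpsd 3 1 32 (by norm_num) (by norm_num) r w hw
    (by push_cast; linarith) (by push_cast; linarith)
    (List.forall_mem_cons.2 ⟨⟨_, _, I02.shWtt, z.zWtt⟩,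
      List.forall_mem_cons.2 ⟨⟨_, _, I02.shDa2, z.zDa2⟩,
      List.forall_mem_cons.2 ⟨⟨_, _, I02.shX1, z.zX1⟩,
      List.forall_mem_cons.2 ⟨⟨_, _, I02.shX2, z.zX2⟩,
      List.forall_mem_cons.2 ⟨⟨_, _, I02.shX3, z.zX3⟩,
      List.forall_mem_cons.2 ⟨⟨_, _, I02.shRt, z.zRt⟩,
      List.forall_mem_cons.2 ⟨⟨_, _, I02.shRa, z.zRa⟩,
      List.forall_mem_cons.2 ⟨⟨_, _, I02.shE1, z.zE1⟩,
      List.forall_mem_cons.2 ⟨⟨_, _, I02.shE2, z.zE2⟩,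
      List.forall_mem_cons.2 ⟨⟨_, _, I02.shE3, z.zE3⟩,
      List.forall_mem_cons.2 ⟨⟨_, _, I02.shF, z.zF⟩,
      List.forall_mem_nil _⟩⟩⟩⟩⟩⟩⟩⟩⟩⟩⟩)
  rw [show I02.g = [([], [1])] from rfl] at h
  simp only [pev, cev, mev] at h
  norm_num at h

theorem cI03 (r : ℝ) (w : Nat → ℝ) (hw : 0 < w 0) (hA : (4 : ℝ) ≤ 32 * r) (hB : 32 * r ≤ (6 : ℝ))
    (z : AllZ r w) : False := by
  have h := fin I03.ident I03.allpsd 5 1 32 (by norm_num) (by norm_num) r w hw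
    (by push_cast; linarith) (by push_cast; linarith)
    (List.forall_mem_cons.2 ⟨⟨_, _, I03.shWtt, z.zWtt⟩,
      List.forall_mem_cons.2 ⟨⟨_, _, I03.shDa2, z.zDa2⟩,
      List.forall_mem_cons.2 ⟨⟨_, _, I03.shX1, z.zX1⟩,
      List.forall_mem_cons.2 ⟨⟨_, _, I03.shX2, z.zX2⟩,
      List.forall_mem_cons.2 ⟨⟨_, _, I03.shX3, z.zX3⟩,
      List.forall_mem_cons.2 ⟨⟨_, _, I03.shRt, z.zRt⟩,
      List.forall_mem_cons.2 ⟨⟨_, _, I03.shRa, z.zRa⟩,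
      List.forall_mem_cons.2 ⟨⟨_, _, I03.shE1, z.zE1⟩,
      List.forall_mem_cons.2 ⟨⟨_, _, I03.shE2, z.zE2⟩,
      List.forall_mem_cons.2 ⟨⟨_, _, I03.shE3, z.zE3⟩,
      List.forall_mem_cons.2 ⟨⟨_, _, I03.shF, z.zF⟩,
      List.forall_mem_nil _⟩⟩⟩⟩⟩⟩⟩⟩⟩⟩⟩)
  rw [show I03.g = [([], [1])] from rfl] at h
  simp only [pev, cev, mev] at h
  norm_num at h

theorem cI04 (r : ℝ) (w : Nat → ℝ) (hw : 0 < w 0) (hA : (6 : ℝ) ≤ 32 * r) (hB : 32 * r ≤ (8 : ℝ))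
    (z : AllZ r w) : False := by
  have h := fin I04.ident I04.allpsd 7 1 32 (by norm_num) (by norm_num) r w hw
    (by push_cast; linarith) (by push_cast; linarith)
    (List.forall_mem_cons.2 ⟨⟨_, _, I04.shWtt, z.zWtt⟩,
      List.forall_mem_cons.2 ⟨⟨_, _, I04.shDa2, z.zDa2⟩,
      List.forall_mem_cons.2 ⟨⟨_, _, I04.shX1, z.zX1⟩,
      List.forall_mem_cons.2 ⟨⟨_, _, I04.shX2, z.zX2⟩,
      List.forall_mem_cons.2 ⟨⟨_, _, I04.shX3, z.zX3⟩,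
      List.forall_mem_cons.2 ⟨⟨_, _, I04.shRt, z.zRt⟩,
      List.forall_mem_cons.2 ⟨⟨_, _, I04.shRa, z.zRa⟩,
      List.forall_mem_cons.2 ⟨⟨_, _, I04.shE1, z.zE1⟩,
      List.forall_mem_cons.2 ⟨⟨_, _, I04.shE2, z.zE2⟩,
      List.forall_mem_cons.2 ⟨⟨_, _, I04.shE3, z.zE3⟩,
      List.forall_mem_cons.2 ⟨⟨_, _, I04.shF, z.zF⟩,
      List.forall_mem_nil _⟩⟩⟩⟩⟩⟩⟩⟩⟩⟩⟩)
  rw [show I04.g = [([], [1])] from rfl] at h
  simp only [pev, cev, mev] at h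
  norm_num at h

theorem cI05 (r : ℝ) (w : Nat → ℝ) (hw : 0 < w 0) (hA : (8 : ℝ) ≤ 32 * r) (hB : 32 * r ≤ (10 : ℝ))
    (z : AllZ r w) : False := by
  have h := fin I05.ident I05.allpsd 9 1 32 (by norm_num) (by norm_num) r w hw
    (by push_cast; linarith) (by push_cast; linarith)
    (List.forall_mem_cons.2 ⟨⟨_, _, I05.shWtt, z.zWtt⟩,
      List.forall_mem_cons.2 ⟨⟨_, _, I05.shDa2, z.zDa2⟩,
      List.forall_mem_cons.2 ⟨⟨_, _, I05.shX1, z.zX1⟩,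
      List.forall_mem_cons.2 ⟨⟨_, _, I05.shX2, z.zX2⟩,
      List.forall_mem_cons.2 ⟨⟨_, _, I05.shX3, z.zX3⟩,
      List.forall_mem_cons.2 ⟨⟨_, _, I05.shRt, z.zRt⟩,
      List.forall_mem_cons.2 ⟨⟨_, _, I05.shRa, z.zRa⟩,
      List.forall_mem_cons.2 ⟨⟨_, _, I05.shE1, z.zE1⟩,
      List.forall_mem_cons.2 ⟨⟨_, _, I05.shE2, z.zE2⟩,
      List.forall_mem_cons.2 ⟨⟨_, _, I05.shE3, z.zE3⟩,
      List.forall_mem_cons.2 ⟨⟨_, _, I05.shF, z.zF⟩,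
      List.forall_mem_nil _⟩⟩⟩⟩⟩⟩⟩⟩⟩⟩⟩)
  rw [show I05.g = [([], [1])] from rfl] at h
  simp only [pev, cev, mev] at h
  norm_num at h

theorem cI06 (r : ℝ) (w : Nat → ℝ) (hw : 0 < w 0) (hA : (10 : ℝ) ≤ 32 * r) (hB : 32 * r ≤ (12 : ℝ))
    (z : AllZ r w) : False := by
  have h := fin I06.ident I06.allpsd 11 1 32 (by norm_num) (by norm_num) r w hw
    (by push_cast; linarith) (by push_cast; linarith)
    (List.forall_mem_cons.2 ⟨⟨_, _, I06.shWtt, z.zWtt⟩,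
      List.forall_mem_cons.2 ⟨⟨_, _, I06.shDa2, z.zDa2⟩,
      List.forall_mem_cons.2 ⟨⟨_, _, I06.shX1, z.zX1⟩,
      List.forall_mem_cons.2 ⟨⟨_, _, I06.shX2, z.zX2⟩,
      List.forall_mem_cons.2 ⟨⟨_, _, I06.shX3, z.zX3⟩,
      List.forall_mem_cons.2 ⟨⟨_, _, I06.shRt, z.zRt⟩,
      List.forall_mem_cons.2 ⟨⟨_, _, I06.shRa, z.zRa⟩,
      List.forall_mem_cons.2 ⟨⟨_, _, I06.shE1, z.zE1⟩,
      List.forall_mem_cons.2 ⟨⟨_, _, I06.shE2, z.zE2⟩,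
      List.forall_mem_cons.2 ⟨⟨_, _, I06.shE3, z.zE3⟩,
      List.forall_mem_cons.2 ⟨⟨_, _, I06.shF, z.zF⟩,
      List.forall_mem_nil _⟩⟩⟩⟩⟩⟩⟩⟩⟩⟩⟩)
  rw [show I06.g = [([], [1])] from rfl] at h
  simp only [pev, cev, mev] at h
  norm_num at h

theorem cI07 (r : ℝ) (w : Nat → ℝ) (hw : 0 < w 0) (hA : (12 : ℝ) ≤ 32 * r) (hB : 32 * r ≤ (14 : ℝ))
    (z : AllZ r w) : False := by
  have h := fin I07.ident I07.allpsd 13 1 32 (by norm_num) (by norm_num) r w hw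
    (by push_cast; linarith) (by push_cast; linarith)
    (List.forall_mem_cons.2 ⟨⟨_, _, I07.shWtt, z.zWtt⟩,
      List.forall_mem_cons.2 ⟨⟨_, _, I07.shDa2, z.zDa2⟩,
      List.forall_mem_cons.2 ⟨⟨_, _, I07.shX1, z.zX1⟩,
      List.forall_mem_cons.2 ⟨⟨_, _, I07.shX2, z.zX2⟩,
      List.forall_mem_cons.2 ⟨⟨_, _, I07.shX3, z.zX3⟩,
      List.forall_mem_cons.2 ⟨⟨_, _, I07.shRt, z.zRt⟩,
      List.forall_mem_cons.2 ⟨⟨_, _, I07.shRa, z.zRa⟩,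
      List.forall_mem_cons.2 ⟨⟨_, _, I07.shE1, z.zE1⟩,
      List.forall_mem_cons.2 ⟨⟨_, _, I07.shE2, z.zE2⟩,
      List.forall_mem_cons.2 ⟨⟨_, _, I07.shE3, z.zE3⟩,
      List.forall_mem_cons.2 ⟨⟨_, _, I07.shF, z.zF⟩,
      List.forall_mem_nil _⟩⟩⟩⟩⟩⟩⟩⟩⟩⟩⟩)
  rw [show I07.g = [([], [1])] from rfl] at h
  simp only [pev, cev, mev] at h
  norm_num at h

theorem cI08 (r : ℝ) (w : Nat → ℝ) (hw : 0 < w 0) (hA : (28 : ℝ) ≤ 64 * r) (hB : 64 * r ≤ (30 : ℝ))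
    (z : AllZ r w) : False := by
  have h := fin I08.ident I08.allpsd 29 1 64 (by norm_num) (by norm_num) r w hw
    (by push_cast; linarith) (by push_cast; linarith)
    (List.forall_mem_cons.2 ⟨⟨_, _, I08.shWtt, z.zWtt⟩,
      List.forall_mem_cons.2 ⟨⟨_, _, I08.shDa2, z.zDa2⟩,
      List.forall_mem_cons.2 ⟨⟨_, _, I08.shX1, z.zX1⟩,
      List.forall_mem_cons.2 ⟨⟨_, _, I08.shX2, z.zX2⟩,
      List.forall_mem_cons.2 ⟨⟨_, _, I08.shX3, z.zX3⟩,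
      List.forall_mem_cons.2 ⟨⟨_, _, I08.shRt, z.zRt⟩,
      List.forall_mem_cons.2 ⟨⟨_, _, I08.shRa, z.zRa⟩,
      List.forall_mem_cons.2 ⟨⟨_, _, I08.shE1, z.zE1⟩,
      List.forall_mem_cons.2 ⟨⟨_, _, I08.shE2, z.zE2⟩,
      List.forall_mem_cons.2 ⟨⟨_, _, I08.shE3, z.zE3⟩,
      List.forall_mem_cons.2 ⟨⟨_, _, I08.shF, z.zF⟩,
      List.forall_mem_nil _⟩⟩⟩⟩⟩⟩⟩⟩⟩⟩⟩)
  rw [show I08.g = [([], [1])] from rfl] at h
  simp only [pev, cev, mev] at h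
  norm_num at h

theorem cI09 (r : ℝ) (w : Nat → ℝ) (hw : 0 < w 0) (hA : (30 : ℝ) ≤ 64 * r) (hB : 64 * r ≤ (32 : ℝ))
    (z : AllZ r w) : False := by
  have h := fin I09.ident I09.allpsd 31 1 64 (by norm_num) (by norm_num) r w hw
    (by push_cast; linarith) (by push_cast; linarith)
    (List.forall_mem_cons.2 ⟨⟨_, _, I09.shWtt, z.zWtt⟩,
      List.forall_mem_cons.2 ⟨⟨_, _, I09.shDa2, z.zDa2⟩,
      List.forall_mem_cons.2 ⟨⟨_, _, I09.shX1, z.zX1⟩,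
      List.forall_mem_cons.2 ⟨⟨_, _, I09.shX2, z.zX2⟩,
      List.forall_mem_cons.2 ⟨⟨_, _, I09.shX3, z.zX3⟩,
      List.forall_mem_cons.2 ⟨⟨_, _, I09.shRt, z.zRt⟩,
      List.forall_mem_cons.2 ⟨⟨_, _, I09.shRa, z.zRa⟩,
      List.forall_mem_cons.2 ⟨⟨_, _, I09.shE1, z.zE1⟩,
      List.forall_mem_cons.2 ⟨⟨_, _, I09.shE2, z.zE2⟩,
      List.forall_mem_cons.2 ⟨⟨_, _, I09.shE3, z.zE3⟩,
      List.forall_mem_cons.2 ⟨⟨_, _, I09.shF, z.zF⟩,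
      List.forall_mem_nil _⟩⟩⟩⟩⟩⟩⟩⟩⟩⟩⟩)
  rw [show I09.g = [([], [1])] from rfl] at h
  simp only [pev, cev, mev] at h
  norm_num at h

theorem cI10 (r : ℝ) (w : Nat → ℝ) (hw : 0 < w 0) (hA : (64 : ℝ) ≤ 128 * r) (hB : 128 * r ≤ (66 : ℝ))
    (z : AllZ r w) : False := by
  have h := fin I10.ident I10.allpsd 65 1 128 (by norm_num) (by norm_num) r w hw
    (by push_cast; linarith) (by push_cast; linarith)
    (List.forall_mem_cons.2 ⟨⟨_, _, I10.shWtt, z.zWtt⟩,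
      List.forall_mem_cons.2 ⟨⟨_, _, I10.shDa2, z.zDa2⟩,
      List.forall_mem_cons.2 ⟨⟨_, _, I10.shX1, z.zX1⟩,
      List.forall_mem_cons.2 ⟨⟨_, _, I10.shX2, z.zX2⟩,
      List.forall_mem_cons.2 ⟨⟨_, _, I10.shX3, z.zX3⟩,
      List.forall_mem_cons.2 ⟨⟨_, _, I10.shRt, z.zRt⟩,
      List.forall_mem_cons.2 ⟨⟨_, _, I10.shRa, z.zRa⟩,
      List.forall_mem_cons.2 ⟨⟨_, _, I10.shE1, z.zE1⟩,
      List.forall_mem_cons.2 ⟨⟨_, _, I10.shE2, z.zE2⟩,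
      List.forall_mem_cons.2 ⟨⟨_, _, I10.shE3, z.zE3⟩,
      List.forall_mem_cons.2 ⟨⟨_, _, I10.shF, z.zF⟩,
      List.forall_mem_nil _⟩⟩⟩⟩⟩⟩⟩⟩⟩⟩⟩)
  rw [show I10.g = [([], [1])] from rfl] at h
  simp only [pev, cev, mev] at h
  norm_num at h

theorem cI11 (r : ℝ) (w : Nat → ℝ) (hw : 0 < w 0) (hA : (66 : ℝ) ≤ 128 * r) (hB : 128 * r ≤ (68 : ℝ))
    (z : AllZ r w) : False := by
  have h := fin I11.ident I11.allpsd 67 1 128 (by norm_num) (by norm_num) r w hw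
    (by push_cast; linarith) (by push_cast; linarith)
    (List.forall_mem_cons.2 ⟨⟨_, _, I11.shWtt, z.zWtt⟩,
      List.forall_mem_cons.2 ⟨⟨_, _, I11.shDa2, z.zDa2⟩,
      List.forall_mem_cons.2 ⟨⟨_, _, I11.shX1, z.zX1⟩,
      List.forall_mem_cons.2 ⟨⟨_, _, I11.shX2, z.zX2⟩,
      List.forall_mem_cons.2 ⟨⟨_, _, I11.shX3, z.zX3⟩,
      List.forall_mem_cons.2 ⟨⟨_, _, I11.shRt, z.zRt⟩,
      List.forall_mem_cons.2 ⟨⟨_, _, I11.shRa, z.zRa⟩,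
      List.forall_mem_cons.2 ⟨⟨_, _, I11.shE1, z.zE1⟩,
      List.forall_mem_cons.2 ⟨⟨_, _, I11.shE2, z.zE2⟩,
      List.forall_mem_cons.2 ⟨⟨_, _, I11.shE3, z.zE3⟩,
      List.forall_mem_cons.2 ⟨⟨_, _, I11.shF, z.zF⟩,
      List.forall_mem_nil _⟩⟩⟩⟩⟩⟩⟩⟩⟩⟩⟩)
  rw [show I11.g = [([], [1])] from rfl] at h
  simp only [pev, cev, mev] at h
  norm_num at h

theorem cI12 (r : ℝ) (w : Nat → ℝ) (hw : 0 < w 0) (hA : (34 : ℝ) ≤ 64 * r) (hB : 64 * r ≤ (36 : ℝ))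
    (z : AllZ r w) : False := by
  have h := fin I12.ident I12.allpsd 35 1 64 (by norm_num) (by norm_num) r w hw
    (by push_cast; linarith) (by push_cast; linarith)
    (List.forall_mem_cons.2 ⟨⟨_, _, I12.shWtt, z.zWtt⟩,
      List.forall_mem_cons.2 ⟨⟨_, _, I12.shDa2, z.zDa2⟩,
      List.forall_mem_cons.2 ⟨⟨_, _, I12.shX1, z.zX1⟩,
      List.forall_mem_cons.2 ⟨⟨_, _, I12.shX2, z.zX2⟩,
      List.forall_mem_cons.2 ⟨⟨_, _, I12.shX3, z.zX3⟩,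
      List.forall_mem_cons.2 ⟨⟨_, _, I12.shRt, z.zRt⟩,
      List.forall_mem_cons.2 ⟨⟨_, _, I12.shRa, z.zRa⟩,
      List.forall_mem_cons.2 ⟨⟨_, _, I12.shE1, z.zE1⟩,
      List.forall_mem_cons.2 ⟨⟨_, _, I12.shE2, z.zE2⟩,
      List.forall_mem_cons.2 ⟨⟨_, _, I12.shE3, z.zE3⟩,
      List.forall_mem_cons.2 ⟨⟨_, _, I12.shF, z.zF⟩,
      List.forall_mem_nil _⟩⟩⟩⟩⟩⟩⟩⟩⟩⟩⟩)
  rw [show I12.g = [([], [1])] from rfl] at h
  simp only [pev, cev, mev] at h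
  norm_num at h

theorem cI13 (r : ℝ) (w : Nat → ℝ) (hw : 0 < w 0) (hA : (18 : ℝ) ≤ 32 * r) (hB : 32 * r ≤ (20 : ℝ))
    (z : AllZ r w) : False := by
  have h := fin I13.ident I13.allpsd 19 1 32 (by norm_num) (by norm_num) r w hw
    (by push_cast; linarith) (by push_cast; linarith)
    (List.forall_mem_cons.2 ⟨⟨_, _, I13.shWtt, z.zWtt⟩,
      List.forall_mem_cons.2 ⟨⟨_, _, I13.shDa2, z.zDa2⟩,
      List.forall_mem_cons.2 ⟨⟨_, _, I13.shX1, z.zX1⟩,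
      List.forall_mem_cons.2 ⟨⟨_, _, I13.shX2, z.zX2⟩,
      List.forall_mem_cons.2 ⟨⟨_, _, I13.shX3, z.zX3⟩,
      List.forall_mem_cons.2 ⟨⟨_, _, I13.shRt, z.zRt⟩,
      List.forall_mem_cons.2 ⟨⟨_, _, I13.shRa, z.zRa⟩,
      List.forall_mem_cons.2 ⟨⟨_, _, I13.shE1, z.zE1⟩,
      List.forall_mem_cons.2 ⟨⟨_, _, I13.shE2, z.zE2⟩,
      List.forall_mem_cons.2 ⟨⟨_, _, I13.shE3, z.zE3⟩,
      List.forall_mem_cons.2 ⟨⟨_, _, I13.shF, z.zF⟩,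
      List.forall_mem_nil _⟩⟩⟩⟩⟩⟩⟩⟩⟩⟩⟩)
  rw [show I13.g = [([], [1])] from rfl] at h
  simp only [pev, cev, mev] at h
  norm_num at h

theorem cJ1 (r : ℝ) (w : Nat → ℝ) (hw : 0 < w 0) (hA : (10 : ℝ) ≤ 16 * r) (hB : 16 * r ≤ (12 : ℝ))
    (z : AllY r w) : False := by
  have h := fin J1.ident J1.allpsd 11 1 16 (by norm_num) (by norm_num) r w hw
    (by push_cast; linarith) (by push_cast; linarith)
    (List.forall_mem_cons.2 ⟨⟨_, _, J1.shRt, z.zRt⟩,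
      List.forall_mem_cons.2 ⟨⟨_, _, J1.shRa, z.zRa⟩,
      List.forall_mem_cons.2 ⟨⟨_, _, J1.shE1, z.zE1⟩,
      List.forall_mem_cons.2 ⟨⟨_, _, J1.shE2, z.zE2⟩,
      List.forall_mem_cons.2 ⟨⟨_, _, J1.shE3, z.zE3⟩,
      List.forall_mem_cons.2 ⟨⟨_, _, J1.shF, z.zF⟩,
      List.forall_mem_nil _⟩⟩⟩⟩⟩⟩)
  rw [show J1.g = [([], [1])] from rfl] at h
  simp only [pev, cev, mev] at h
  norm_num at h

theorem cJ2 (r : ℝ) (w : Nat → ℝ) (hw : 0 < w 0) (hA : (12 : ℝ) ≤ 16 * r) (hB : 16 * r ≤ (14 : ℝ))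
    (z : AllY r w) : False := by
  have h := fin J2.ident J2.allpsd 13 1 16 (by norm_num) (by norm_num) r w hw
    (by push_cast; linarith) (by push_cast; linarith)
    (List.forall_mem_cons.2 ⟨⟨_, _, J2.shRt, z.zRt⟩,
      List.forall_mem_cons.2 ⟨⟨_, _, J2.shRa, z.zRa⟩,
      List.forall_mem_cons.2 ⟨⟨_, _, J2.shE1, z.zE1⟩,
      List.forall_mem_cons.2 ⟨⟨_, _, J2.shE2, z.zE2⟩,
      List.forall_mem_cons.2 ⟨⟨_, _, J2.shE3, z.zE3⟩,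
      List.forall_mem_cons.2 ⟨⟨_, _, J2.shF, z.zF⟩,
      List.forall_mem_nil _⟩⟩⟩⟩⟩⟩)
  rw [show J2.g = [([], [1])] from rfl] at h
  simp only [pev, cev, mev] at h
  norm_num at h

theorem cJ3 (r : ℝ) (w : Nat → ℝ) (hw : 0 < w 0) (hA : (14 : ℝ) ≤ 16 * r) (hB : 16 * r ≤ (16 : ℝ)) (h1 : r < 1)
    (z : AllY r w) : False := by
  have h := fin J3.ident J3.allpsd 15 1 16 (by norm_num) (by norm_num) r w hw
    (by push_cast; linarith) (by push_cast; linarith)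
    (List.forall_mem_cons.2 ⟨⟨_, _, J3.shRt, z.zRt⟩,
      List.forall_mem_cons.2 ⟨⟨_, _, J3.shRa, z.zRa⟩,
      List.forall_mem_cons.2 ⟨⟨_, _, J3.shE1, z.zE1⟩,
      List.forall_mem_cons.2 ⟨⟨_, _, J3.shE2, z.zE2⟩,
      List.forall_mem_cons.2 ⟨⟨_, _, J3.shE3, z.zE3⟩,
      List.forall_mem_cons.2 ⟨⟨_, _, J3.shF, z.zF⟩,
      List.forall_mem_nil _⟩⟩⟩⟩⟩⟩)
  rw [show J3.g = [([], [1, -1])] from rfl] at h
  simp only [pev, cev, mev] at h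
  push_cast at h
  linarith

theorem regI (r : ℝ) (w : Nat → ℝ) (hw : 0 < w 0) (h0 : 0 < r) (h1 : 8 * r ≤ 5) (z : AllZ r w) : False := by
  rcases le_or_gt ((32 : ℝ) * r) 2 with h | h
  · exact cI01 r w hw (by linarith) (by linarith) h0 z
  rcases le_or_gt ((32 : ℝ) * r) 4 with h | h
  · exact cI02 r w hw (by linarith) (by linarith) z
  rcases le_or_gt ((32 : ℝ) * r) 6 with h | h
  · exact cI03 r w hw (by linarith) (by linarith) z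
  rcases le_or_gt ((32 : ℝ) * r) 8 with h | h
  · exact cI04 r w hw (by linarith) (by linarith) z
  rcases le_or_gt ((32 : ℝ) * r) 10 with h | h
  · exact cI05 r w hw (by linarith) (by linarith) z
  rcases le_or_gt ((32 : ℝ) * r) 12 with h | h
  · exact cI06 r w hw (by linarith) (by linarith) z
  rcases le_or_gt ((32 : ℝ) * r) 14 with h | h
  · exact cI07 r w hw (by linarith) (by linarith) z
  rcases le_or_gt ((64 : ℝ) * r) 30 with h | h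
  · exact cI08 r w hw (by linarith) (by linarith) z
  rcases le_or_gt ((64 : ℝ) * r) 32 with h | h
  · exact cI09 r w hw (by linarith) (by linarith) z
  rcases le_or_gt ((128 : ℝ) * r) 66 with h | h
  · exact cI10 r w hw (by linarith) (by linarith) z
  rcases le_or_gt ((128 : ℝ) * r) 68 with h | h
  · exact cI11 r w hw (by linarith) (by linarith) z
  rcases le_or_gt ((64 : ℝ) * r) 36 with h | h
  · exact cI12 r w hw (by linarith) (by linarith) z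
  exact cI13 r w hw (by linarith) (by linarith) z

theorem regII (r : ℝ) (w : Nat → ℝ) (hw : 0 < w 0) (h0 : 5 ≤ 8 * r) (h1 : r < 1) (z : AllY r w) : False := by
  rcases le_or_gt ((16 : ℝ) * r) 12 with h | h
  · exact cJ1 r w hw (by linarith) (by linarith) z
  rcases le_or_gt ((16 : ℝ) * r) 14 with h | h
  · exact cJ2 r w hw (by linarith) (by linarith) z
  exact cJ3 r w hw (by linarith) (by linarith) h1 z

theorem noSol (r : ℝ) (w : Nat → ℝ) (hw : 0 < w 0) (h0 : 0 < r) (h1 : r < 1) (z : AllZ r w) : False := by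
  rcases le_or_gt (8 * r) 5 with h | h
  · exact regI r w hw h0 h z
  · obtain ⟨w', k0, kF, k1, k2, k3, kt, ka⟩ :=
      shift r (by linarith) h1 w z.zF z.zE1 z.zE2 z.zE3 z.zRt z.zRa
    exact regII r w' (by rw [k0]; exact hw) (by linarith) h1 ⟨kt, ka, k1, k2, k3, kF⟩

theorem stB : StB := by
  intro A _ S ev hK hr0 hr1 k
  exfalso
  have key : ∀ P : Po, pev S.r (v2 S) P = 0 → pev (ev S.r) (fun i => ev (v2 S i)) P = 0 := by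
    intro P hP
    rw [← pev_map, hP, map_zero]
  refine noSol (ev S.r) (fun i => ev (v2 S i)) ?_ hr0 hr1 ?_
  · change 0 < ev (v2 S 0)
    rw [v2_0]; exact hK
  · exact ⟨key _ (zWtt S), key _ (zDa2 S), key _ (zX1 S), key _ (zX2 S), key _ (zX3 S),
      key _ (zRt S), key _ (zRa S), key _ (zE1 S), key _ (zE2 S), key _ (zE3 S), key _ (zF S)⟩

end Y493.Br.Glue
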