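import Pool.Agent.Y261.BR.L4
import Pool.Agent.Y73.BR.L3
import Pool.Agent.Y98.BR.L5
import Pool.Agent.Y493.Br.Stm2

set_option autoImplicit false

/-!
General lemmas for the glue.
-/

namespace Y493.Br.Glue

open Y493.Br.Refl Y493.Br.Pk Y493.Br.Jet Y493.Br.Cert

section ring
variable {A : Type} [CommRing A]

theorem mev_agree (v w : Nat → A) (n : Nat) (h : ∀ i, i < n → v i = w i) :
    ∀ m : Mo, ltM n m = true → mev v m = mev w m := by
  intro m
  induction m with
  | nil => intro _; rfl
  | cons i m ih =>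
    intro hm
    simp only [ltM, Bool.and_eq_true] at hm
    have h1 : i < n := by
      have := hm.1
      exact Nat.blt_eq.mp this
    change v i * mev v m = w i * mev w m
    rw [h i h1, ih hm.2]

theorem pev_agree (r : A) (v w : Nat → A) (n : Nat) (h : ∀ i, i < n → v i = w i) :
    ∀ P : Po, ltP n P = true → pev r v P = pev r w P := by
  intro P
  induction P with
  | nil => intro _; rfl
  | cons t P ih =>
    intro hP
    simp only [ltP, Bool.and_eq_true] at hP
    change cev r t.2 * mev v t.1 + pev r v P = cev r t.2 * mev w t.1 + pev r w P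
    rw [mev_agree v w n h t.1 hP.1, ih hP.2]

/-- renaming of variables -/
def renM (f : Nat → Nat) : Mo → Mo
  | [] => []
  | i :: m => f i :: renM f m

def renP (f : Nat → Nat) : Po → Po
  | [] => []
  | t :: P => (renM f t.1, t.2) :: renP f P

theorem mev_ren (f : Nat → Nat) (v : Nat → A) : ∀ m : Mo, mev v (renM f m) = mev (fun i => v (f i)) m := by
  intro m
  induction m with
  | nil => rfl
  | cons i m ih =>
    change v (f i) * mev v (renM f m) = v (f i) * mev (fun i => v (f i)) m
    rw [ih]

theorem pev_ren (f : Nat → Nat) (r : A) (v : Nat → A) :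
    ∀ P : Po, pev r v (renP f P) = pev r (fun i => v (f i)) P := by
  intro P
  induction P with
  | nil => rfl
  | cons t P ih =>
    change cev r t.2 * mev v (renM f t.1) + pev r v (renP f P)
      = cev r t.2 * mev (fun i => v (f i)) t.1 + pev r (fun i => v (f i)) P
    rw [mev_ren, ih]

theorem cev_map {B : Type} [CommRing B] (φ : A →+* B) (r : A) :
    ∀ c : Cf, φ (cev r c) = cev (φ r) c := by
  intro c
  induction c with
  | nil => exact map_zero φ
  | cons x a ih =>
    change φ ((x : A) + r * cev r a) = (x : B) + φ r * cev (φ r) a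
    rw [map_add, map_mul, ih, map_intCast]

theorem mev_map {B : Type} [CommRing B] (φ : A →+* B) (v : Nat → A) :
    ∀ m : Mo, φ (mev v m) = mev (fun i => φ (v i)) m := by
  intro m
  induction m with
  | nil => exact map_one φ
  | cons i m ih =>
    change φ (v i * mev v m) = φ (v i) * mev (fun i => φ (v i)) m
    rw [map_mul, ih]

theorem pev_map {B : Type} [CommRing B] (φ : A →+* B) (r : A) (v : Nat → A) :
    ∀ P : Po, φ (pev r v P) = pev (φ r) (fun i => φ (v i)) P := by
  intro P
  induction P with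
  | nil => exact map_zero φ
  | cons t P ih =>
    change φ (cev r t.2 * mev v t.1 + pev r v P)
      = cev (φ r) t.2 * mev (fun i => φ (v i)) t.1 + pev (φ r) (fun i => φ (v i)) P
    rw [map_add, map_mul, cev_map, mev_map, ih]

theorem l3' {e : Ex} (h : e.isZero = true) (r : A) (v : Nat → A) : e.sem r v = 0 :=
  Y73.BR.l3 e h A r v

/-- `U * P = P'` by reflection -/
theorem mulEq {c : Int} {a b : Nat} {P P' : Po}
    (h : (Ex.sub (.mul (.lit (unitP c a b)) (.lit P)) (.lit P')).isZero = true)
    (r : A) (v : Nat → A) : (c : A) * (1 + r) ^ a * (1 - r) ^ b * pev r v P = pev r v P' := by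
  have h1 := l3' h r v
  change pev r v (unitP c a b) * pev r v P - pev r v P' = 0 at h1
  rw [Y261.BR.pev_unitP] at h1
  exact sub_eq_zero.mp h1

/-- one derivation step -/
theorem step {T : Tab} {e : Fin 3 → Derivation ℤ A A} {r : A} {v : Nat → A} (h : Holds T e r v)
    {Z : List Po} {s : Step} (hc : s.check T Z = true) (hZ : ∀ P ∈ Z, pev r v P = 0) :
    pev r v s.tgt = 0 :=
  Y261.BR.l4 Y73.BR.l3 T A e r v h Z s hZ hc

end ring

/-- conclusion on one interval -/
theorem fin {comb : List (Po × Po × Po)} {c : Nat} {g : Po} {bs : List Blk}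
    (hid : (idEx comb c g bs).isZero = true) (hpsd : psdAll bs = true)
    (C H : Int) (q : Nat) (hq : 0 < q) (hH : 0 < H) (r : ℝ) (w : Nat → ℝ) (hw : 0 < w 0)
    (hA : (C : ℝ) - (H : ℝ) ≤ (q : ℝ) * r) (hB : (q : ℝ) * r ≤ (C : ℝ) + (H : ℝ))
    (hz : ∀ t ∈ comb, ∃ (D : Nat) (P : Po), shOk C H q D P t.2.2 = true ∧ pev r w P = 0) :
    pev (((q : ℝ) * r - C) / H) w g = 0 := by
  have hH' : (0 : ℝ) < (H : ℝ) := by exact_mod_cast hH
  have hq' : (0 : ℝ) < (q : ℝ) := by exact_mod_cast hq
  obtain ⟨hs, hc⟩ := Y98.BR.l5 Y73.BR.l3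
  refine hc comb c g bs hid hpsd _ w ?_ ?_ hw ?_
  · rw [le_div_iff₀ hH']; linarith
  · rw [div_le_iff₀ hH']; linarith
  · intro t ht
    obtain ⟨D, P, h1, h2⟩ := hz t ht
    have h3 := hs C H q D P t.2.2 h1 r (((q : ℝ) * r - C) / H) w (by field_simp; ring)
    rw [h2, mul_zero] at h3
    exact h3.symm

end Y493.Br.Glue
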