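import Pool.Agent.Y493.Br.Gl0
import Pool.Agent.Y493.Br.Jt1
import Pool.Agent.Y493.Br.Jt2

set_option autoImplicit false
set_option maxRecDepth 100000

/-!
From the normalised system to the vanishing of the derived polynomials.
-/

namespace Y493.Br.Glue

open Y493.Br.Refl Y493.Br.Pk Y493.Br.Jet Y493.Br.Cert

theorem x_dr0 {A : Type} [CommRing A] (r : A) (v : Nat → A) :
    pev r v Jt1.dr0 = ((-54) + 36 * r ^ 2 + 18 * r ^ 4) * v 2 := by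
  rw [show Jt1.dr0 = [([2], [-54, 0, 36, 0, 18])] from by decide +kernel]
  simp only [pev, cev, mev]; push_cast; ring

theorem x_dv0_0 {A : Type} [CommRing A] (r : A) (v : Nat → A) :
    pev r v Jt1.dv0_0 = ((-36) * r + 36 * r ^ 3) * v 0 * v 2 := by
  rw [show Jt1.dv0_0 = [([0, 2], [0, -36, 0, 36])] from by decide +kernel]
  simp only [pev, cev, mev]; push_cast; ring

theorem x_dv0_1 {A : Type} [CommRing A] (r : A) (v : Nat → A) :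
    pev r v Jt1.dv0_1 = (108 + (-18) * r + 36 * r ^ 2 + 18 * r ^ 3) * v 1 * v 2 + (18 + 18 * r + (-18) * r ^ 2 + (-18) * r ^ 3) * v 6 + ((-108) + (-126) * r + (-54) * r ^ 2 + (-18) * r ^ 3 + 18 * r ^ 4) * v 3 * v 4 := by
  rw [show Jt1.dv0_1 = [([1, 2], [108, -18, 36, 18]), ([6], [18, 18, -18, -18]), ([3, 4], [-108, -126, -54, -18, 18])] from by decide +kernel]
  simp only [pev, cev, mev]; push_cast; ring

theorem x_dv0_2 {A : Type} [CommRing A] (r : A) (v : Nat → A) :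
    pev r v Jt1.dv0_2 = (6 * r + (-8) * r ^ 2 + (-4) * r ^ 3 + 8 * r ^ 4 + (-2) * r ^ 5) + (9 + (-9) * r + (-9) * r ^ 2 + 9 * r ^ 3) * v 0 + ((-9) + 18 * r + (-9) * r ^ 2) * v 1 * v 1 + (18 + 18 * r + (-18) * r ^ 2 + (-18) * r ^ 3) * v 5 + (72 + 36 * r + 36 * r ^ 3) * v 2 * v 2 + (63 + 81 * r + 45 * r ^ 2 + 27 * r ^ 3) * v 3 * v 3 + (9 + 9 * r + (-9) * r ^ 2 + (-9) * r ^ 3) * v 4 * v 4 := by
  rw [show Jt1.dv0_2 = [([], [0, 6, -8, -4, 8, -2]), ([0], [9, -9, -9, 9]), ([1, 1], [-9, 18, -9]), ([5], [18, 18, -18, -18]), ([2, 2], [72, 36, 0, 36]), ([3, 3], [63, 81, 45, 27]), ([4, 4], [9, 9, -9, -9])] from by decide +kernel]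
  simp only [pev, cev, mev]; push_cast; ring

theorem x_dv0_3 {A : Type} [CommRing A] (r : A) (v : Nat → A) :
    pev r v Jt1.dv0_3 = (18 + (-18) * r ^ 2) * v 8 + (18 + (-18) * r) * v 1 * v 4 + ((-18) + (-54) * r + (-18) * r ^ 2 + 18 * r ^ 3) * v 2 * v 3 := by
  rw [show Jt1.dv0_3 = [([8], [18, 0, -18]), ([1, 4], [18, -18]), ([2, 3], [-18, -54, -18, 18])] from by decide +kernel]
  simp only [pev, cev, mev]; push_cast; ring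

theorem x_dv0_4 {A : Type} [CommRing A] (r : A) (v : Nat → A) :
    pev r v Jt1.dv0_4 = (18 + (-18) * r ^ 2) * v 7 + ((-18) + 18 * r) * v 1 * v 3 + ((-9) + (-27) * r + 9 * r ^ 2 + 27 * r ^ 3) * v 2 * v 4 := by
  rw [show Jt1.dv0_4 = [([7], [18, 0, -18]), ([1, 3], [-18, 18]), ([2, 4], [-9, -27, 9, 27])] from by decide +kernel]
  simp only [pev, cev, mev]; push_cast; ring

theorem x_dr1 {A : Type} [CommRing A] (r : A) (v : Nat → A) :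
    pev r v Jt1.dr1 = ((-54) + 36 * r ^ 2 + 18 * r ^ 4) * v 3 := by
  rw [show Jt1.dr1 = [([3], [-54, 0, 36, 0, 18])] from by decide +kernel]
  simp only [pev, cev, mev]; push_cast; ring

theorem x_dv1_0 {A : Type} [CommRing A] (r : A) (v : Nat → A) :
    pev r v Jt1.dv1_0 = ((-36) * r + 36 * r ^ 3) * v 0 * v 3 := by
  rw [show Jt1.dv1_0 = [([0, 3], [0, -36, 0, 36])] from by decide +kernel]
  simp only [pev, cev, mev]; push_cast; ring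

theorem x_dv1_1 {A : Type} [CommRing A] (r : A) (v : Nat → A) :
    pev r v Jt1.dv1_1 = ((-36) + 36 * r ^ 2) * v 7 + (90 * r + 54 * r ^ 3) * v 1 * v 3 + (252 * r + 36 * r ^ 3) * v 2 * v 4 := by
  rw [show Jt1.dv1_1 = [([7], [-36, 0, 36]), ([1, 3], [0, 90, 0, 54]), ([2, 4], [0, 252, 0, 36])] from by decide +kernel]
  simp only [pev, cev, mev]; push_cast; ring

theorem x_dv1_2 {A : Type} [CommRing A] (r : A) (v : Nat → A) :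
    pev r v Jt1.dv1_2 = (18 + (-18) * r ^ 2) * v 8 + (9 + (-9) * r ^ 2) * v 1 * v 4 + ((-36) + (-54) * r + 18 * r ^ 3) * v 2 * v 3 := by
  rw [show Jt1.dv1_2 = [([8], [18, 0, -18]), ([1, 4], [9, 0, -9]), ([2, 3], [-36, -54, 0, 18])] from by decide +kernel]
  simp only [pev, cev, mev]; push_cast; ring

theorem x_dv1_3 {A : Type} [CommRing A] (r : A) (v : Nat → A) :
    pev r v Jt1.dv1_3 = ((-36) + 36 * r ^ 2) * v 5 + (36 + 36 * r) * v 2 * v 2 + ((-18) * r + 18 * r ^ 3) * v 3 * v 3 + ((-36) + 36 * r) * v 4 * v 4 := by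
  rw [show Jt1.dv1_3 = [([5], [-36, 0, 36]), ([2, 2], [36, 36]), ([3, 3], [0, -18, 0, 18]), ([4, 4], [-36, 36])] from by decide +kernel]
  simp only [pev, cev, mev]; push_cast; ring

theorem x_dv1_4 {A : Type} [CommRing A] (r : A) (v : Nat → A) :
    pev r v Jt1.dv1_4 = ((-9) + 9 * r ^ 2) * v 1 * v 2 + (18 + (-18) * r ^ 2) * v 6 + (36 + (-54) * r + 18 * r ^ 3) * v 3 * v 4 := by
  rw [show Jt1.dv1_4 = [([1, 2], [-9, 0, 9]), ([6], [18, 0, -18]), ([3, 4], [36, -54, 0, 18])] from by decide +kernel]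
  simp only [pev, cev, mev]; push_cast; ring

theorem x_dr2 {A : Type} [CommRing A] (r : A) (v : Nat → A) :
    pev r v Jt1.dr2 = ((-54) + 36 * r ^ 2 + 18 * r ^ 4) * v 4 := by
  rw [show Jt1.dr2 = [([4], [-54, 0, 36, 0, 18])] from by decide +kernel]
  simp only [pev, cev, mev]; push_cast; ring

theorem x_dv2_0 {A : Type} [CommRing A] (r : A) (v : Nat → A) :
    pev r v Jt1.dv2_0 = ((-36) * r + 36 * r ^ 3) * v 0 * v 4 := by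
  rw [show Jt1.dv2_0 = [([0, 4], [0, -36, 0, 36])] from by decide +kernel]
  simp only [pev, cev, mev]; push_cast; ring

theorem x_dv2_1 {A : Type} [CommRing A] (r : A) (v : Nat → A) :
    pev r v Jt1.dv2_1 = (18 + (-18) * r + (-18) * r ^ 2 + 18 * r ^ 3) * v 8 + ((-108) + (-18) * r + (-36) * r ^ 2 + 18 * r ^ 3) * v 1 * v 4 + (108 + (-126) * r + 54 * r ^ 2 + (-18) * r ^ 3 + (-18) * r ^ 4) * v 2 * v 3 := by
  rw [show Jt1.dv2_1 = [([8], [18, -18, -18, 18]), ([1, 4], [-108, -18, -36, 18]), ([2, 3], [108, -126, 54, -18, -18])] from by decide +kernel]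
  simp only [pev, cev, mev]; push_cast; ring

theorem x_dv2_2 {A : Type} [CommRing A] (r : A) (v : Nat → A) :
    pev r v Jt1.dv2_2 = (18 + (-18) * r ^ 2) * v 7 + (18 + 18 * r) * v 1 * v 3 + (9 + (-27) * r + (-9) * r ^ 2 + 27 * r ^ 3) * v 2 * v 4 := by
  rw [show Jt1.dv2_2 = [([7], [18, 0, -18]), ([1, 3], [18, 18]), ([2, 4], [9, -27, -9, 27])] from by decide +kernel]
  simp only [pev, cev, mev]; push_cast; ring

theorem x_dv2_3 {A : Type} [CommRing A] (r : A) (v : Nat → A) :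
    pev r v Jt1.dv2_3 = ((-18) + (-18) * r) * v 1 * v 2 + (18 + (-18) * r ^ 2) * v 6 + (18 + (-54) * r + 18 * r ^ 2 + 18 * r ^ 3) * v 3 * v 4 := by
  rw [show Jt1.dv2_3 = [([1, 2], [-18, -18]), ([6], [18, 0, -18]), ([3, 4], [18, -54, 18, 18])] from by decide +kernel]
  simp only [pev, cev, mev]; push_cast; ring

theorem x_dv2_4 {A : Type} [CommRing A] (r : A) (v : Nat → A) :
    pev r v Jt1.dv2_4 = (6 * r + 8 * r ^ 2 + (-4) * r ^ 3 + (-8) * r ^ 4 + (-2) * r ^ 5) + ((-9) + (-9) * r + 9 * r ^ 2 + 9 * r ^ 3) * v 0 + (9 + 18 * r + 9 * r ^ 2) * v 1 * v 1 + (18 + (-18) * r + (-18) * r ^ 2 + 18 * r ^ 3) * v 5 + ((-9) + 9 * r + 9 * r ^ 2 + (-9) * r ^ 3) * v 2 * v 2 + ((-63) + 81 * r + (-45) * r ^ 2 + 27 * r ^ 3) * v 3 * v 3 + ((-72) + 36 * r + 36 * r ^ 3) * v 4 * v 4 := by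
  rw [show Jt1.dv2_4 = [([], [0, 6, 8, -4, -8, -2]), ([0], [-9, -9, 9, 9]), ([1, 1], [9, 18, 9]), ([5], [18, -18, -18, 18]), ([2, 2], [-9, 9, 9, -9]), ([3, 3], [-63, 81, -45, 27]), ([4, 4], [-72, 36, 0, 36])] from by decide +kernel]
  simp only [pev, cev, mev]; push_cast; ring

theorem x_dv0_5 {A : Type} [CommRing A] (r : A) (v : Nat → A) :
    pev r v Jt1.dv0_5 = (18 + (-18) * r ^ 2) * v 13 := by
  rw [show Jt1.dv0_5 = [([13], [18, 0, -18])] from by decide +kernel]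
  simp only [pev, cev, mev]; push_cast; ring

theorem x_dv0_6 {A : Type} [CommRing A] (r : A) (v : Nat → A) :
    pev r v Jt1.dv0_6 = (18 + (-18) * r ^ 2) * v 14 := by
  rw [show Jt1.dv0_6 = [([14], [18, 0, -18])] from by decide +kernel]
  simp only [pev, cev, mev]; push_cast; ring

theorem x_dv0_7 {A : Type} [CommRing A] (r : A) (v : Nat → A) :
    pev r v Jt1.dv0_7 = (18 + (-18) * r ^ 2) * v 15 := by
  rw [show Jt1.dv0_7 = [([15], [18, 0, -18])] from by decide +kernel]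
  simp only [pev, cev, mev]; push_cast; ring

theorem x_dv0_8 {A : Type} [CommRing A] (r : A) (v : Nat → A) :
    pev r v Jt1.dv0_8 = (18 + (-18) * r ^ 2) * v 16 := by
  rw [show Jt1.dv0_8 = [([16], [18, 0, -18])] from by decide +kernel]
  simp only [pev, cev, mev]; push_cast; ring

theorem x_dv1_5 {A : Type} [CommRing A] (r : A) (v : Nat → A) :
    pev r v Jt1.dv1_5 = (18 + (-18) * r ^ 2) * v 17 := by
  rw [show Jt1.dv1_5 = [([17], [18, 0, -18])] from by decide +kernel]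
  simp only [pev, cev, mev]; push_cast; ring

theorem x_dv1_6 {A : Type} [CommRing A] (r : A) (v : Nat → A) :
    pev r v Jt1.dv1_6 = (18 + (-18) * r ^ 2) * v 18 := by
  rw [show Jt1.dv1_6 = [([18], [18, 0, -18])] from by decide +kernel]
  simp only [pev, cev, mev]; push_cast; ring

theorem x_dv1_7 {A : Type} [CommRing A] (r : A) (v : Nat → A) :
    pev r v Jt1.dv1_7 = (18 + (-18) * r ^ 2) * v 19 := by
  rw [show Jt1.dv1_7 = [([19], [18, 0, -18])] from by decide +kernel]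
  simp only [pev, cev, mev]; push_cast; ring

theorem x_dv1_8 {A : Type} [CommRing A] (r : A) (v : Nat → A) :
    pev r v Jt1.dv1_8 = (18 + (-18) * r ^ 2) * v 20 := by
  rw [show Jt1.dv1_8 = [([20], [18, 0, -18])] from by decide +kernel]
  simp only [pev, cev, mev]; push_cast; ring

theorem x_dv2_5 {A : Type} [CommRing A] (r : A) (v : Nat → A) :
    pev r v Jt1.dv2_5 = (18 + (-18) * r ^ 2) * v 21 := by
  rw [show Jt1.dv2_5 = [([21], [18, 0, -18])] from by decide +kernel]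
  simp only [pev, cev, mev]; push_cast; ring

theorem x_dv2_6 {A : Type} [CommRing A] (r : A) (v : Nat → A) :
    pev r v Jt1.dv2_6 = (18 + (-18) * r ^ 2) * v 22 := by
  rw [show Jt1.dv2_6 = [([22], [18, 0, -18])] from by decide +kernel]
  simp only [pev, cev, mev]; push_cast; ring

theorem x_dv2_7 {A : Type} [CommRing A] (r : A) (v : Nat → A) :
    pev r v Jt1.dv2_7 = (18 + (-18) * r ^ 2) * v 23 := by
  rw [show Jt1.dv2_7 = [([23], [18, 0, -18])] from by decide +kernel]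
  simp only [pev, cev, mev]; push_cast; ring

theorem x_dv2_8 {A : Type} [CommRing A] (r : A) (v : Nat → A) :
    pev r v Jt1.dv2_8 = (18 + (-18) * r ^ 2) * v 24 := by
  rw [show Jt1.dv2_8 = [([24], [18, 0, -18])] from by decide +kernel]
  simp only [pev, cev, mev]; push_cast; ring

theorem x_br0_0 {A : Type} [CommRing A] (r : A) (v : Nat → A) :
    pev r v Jt1.br0_0 = ((-2) + (-2) * r + (-2) * r ^ 2 + (-2) * r ^ 3) * v 3 := by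
  rw [show Jt1.br0_0 = [([3], [-2, -2, -2, -2])] from by decide +kernel]
  simp only [pev, cev, mev]; push_cast; ring

theorem brEq0_0 : Jt2.br0_0 = Jt1.br0_0 := by decide +kernel

theorem x_br0_1 {A : Type} [CommRing A] (r : A) (v : Nat → A) :
    pev r v Jt1.br0_1 = (4 + 2 * r + 2 * r ^ 3) * v 2 := by
  rw [show Jt1.br0_1 = [([2], [4, 2, 0, 2])] from by decide +kernel]
  simp only [pev, cev, mev]; push_cast; ring

theorem brEq0_1 : Jt2.br0_1 = Jt1.br0_1 := by decide +kernel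

theorem x_br0_2 {A : Type} [CommRing A] (r : A) (v : Nat → A) :
    pev r v Jt1.br0_2 = (1 + (-2) * r + 1 * r ^ 2) * v 1 := by
  rw [show Jt1.br0_2 = [([1], [1, -2, 1])] from by decide +kernel]
  simp only [pev, cev, mev]; push_cast; ring

theorem brEq0_2 : Jt2.br0_2 = Jt1.br0_2 := by decide +kernel

theorem drEq0 : (Ex.sub (.mul (.lit (unitP 1 1 1)) (.lit Jt1.dr0)) (.lit Jt2.dr0)).isZero = true := by decide +kernel

theorem x_br1_0 {A : Type} [CommRing A] (r : A) (v : Nat → A) :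
    pev r v Jt1.br1_0 = (1 + 2 * r + 1 * r ^ 2) * v 1 := by
  rw [show Jt1.br1_0 = [([1], [1, 2, 1])] from by decide +kernel]
  simp only [pev, cev, mev]; push_cast; ring

theorem brEq1_0 : Jt2.br1_0 = Jt1.br1_0 := by decide +kernel

theorem x_br1_1 {A : Type} [CommRing A] (r : A) (v : Nat → A) :
    pev r v Jt1.br1_1 = (4 + (-2) * r + (-2) * r ^ 3) * v 4 := by
  rw [show Jt1.br1_1 = [([4], [4, -2, 0, -2])] from by decide +kernel]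
  simp only [pev, cev, mev]; push_cast; ring

theorem brEq1_1 : Jt2.br1_1 = Jt1.br1_1 := by decide +kernel

theorem x_br1_2 {A : Type} [CommRing A] (r : A) (v : Nat → A) :
    pev r v Jt1.br1_2 = ((-2) + 2 * r + (-2) * r ^ 2 + 2 * r ^ 3) * v 3 := by
  rw [show Jt1.br1_2 = [([3], [-2, 2, -2, 2])] from by decide +kernel]
  simp only [pev, cev, mev]; push_cast; ring

theorem brEq1_2 : Jt2.br1_2 = Jt1.br1_2 := by decide +kernel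

theorem drEq1 : (Ex.sub (.mul (.lit (unitP 1 1 1)) (.lit Jt1.dr1)) (.lit Jt2.dr1)).isZero = true := by decide +kernel

theorem x_br2_0 {A : Type} [CommRing A] (r : A) (v : Nat → A) :
    pev r v Jt1.br2_0 = (1 + (-1) * r + (-1) * r ^ 2 + 1 * r ^ 3) * v 4 := by
  rw [show Jt1.br2_0 = [([4], [1, -1, -1, 1])] from by decide +kernel]
  simp only [pev, cev, mev]; push_cast; ring

theorem brEq2_0 : Jt2.br2_0 = Jt1.br2_0 := by decide +kernel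

theorem x_br2_1 {A : Type} [CommRing A] (r : A) (v : Nat → A) :
    pev r v Jt1.br2_1 = (4) * v 1 := by
  rw [show Jt1.br2_1 = [([1], [4])] from by decide +kernel]
  simp only [pev, cev, mev]; push_cast; ring

theorem brEq2_1 : Jt2.br2_1 = Jt1.br2_1 := by decide +kernel

theorem x_br2_2 {A : Type} [CommRing A] (r : A) (v : Nat → A) :
    pev r v Jt1.br2_2 = (1 + 1 * r + (-1) * r ^ 2 + (-1) * r ^ 3) * v 2 := by
  rw [show Jt1.br2_2 = [([2], [1, 1, -1, -1])] from by decide +kernel]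
  simp only [pev, cev, mev]; push_cast; ring

theorem brEq2_2 : Jt2.br2_2 = Jt1.br2_2 := by decide +kernel

theorem drEq2 : (Ex.sub (.mul (.lit (unitP 1 1 1)) (.lit Jt1.dr2)) (.lit Jt2.dr2)).isZero = true := by decide +kernel

theorem x_z0 {A : Type} [CommRing A] (r : A) (v : Nat → A) :
    pev r v Jt1.z0 = ((-1)) * v 9 + (1) * v 19 := by
  rw [show Jt1.z0 = [([9], [-1]), ([19], [1])] from by decide +kernel]
  simp only [pev, cev, mev]; push_cast; ring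

theorem x_z1 {A : Type} [CommRing A] (r : A) (v : Nat → A) :
    pev r v Jt1.z1 = ((-1)) * v 10 + (1) * v 13 := by
  rw [show Jt1.z1 = [([10], [-1]), ([13], [1])] from by decide +kernel]
  simp only [pev, cev, mev]; push_cast; ring

theorem x_z2 {A : Type} [CommRing A] (r : A) (v : Nat → A) :
    pev r v Jt1.z2 = ((-1)) * v 11 + (1) * v 17 := by
  rw [show Jt1.z2 = [([11], [-1]), ([17], [1])] from by decide +kernel]
  simp only [pev, cev, mev]; push_cast; ring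

theorem x_z3 {A : Type} [CommRing A] (r : A) (v : Nat → A) :
    pev r v Jt1.z3 = ((-1)) * v 12 + (1) * v 21 := by
  rw [show Jt1.z3 = [([12], [-1]), ([21], [1])] from by decide +kernel]
  simp only [pev, cev, mev]; push_cast; ring

theorem x_nF {A : Type} [CommRing A] (r : A) (v : Nat → A) :
    pev r v Dat.nF = ((-36) + (-24) * r ^ 2 + (-4) * r ^ 4) + (54 + 18 * r ^ 2) * v 0 + (54) * v 1 * v 1 + (144 + (-36) * r + 36 * r ^ 2) * v 2 * v 2 + (90 + 54 * r ^ 2) * v 3 * v 3 + (144 + 36 * r + 36 * r ^ 2) * v 4 * v 4 := by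
  rw [show Dat.nF = [([], [-36, 0, -24, 0, -4]), ([0], [54, 0, 18]), ([1, 1], [54]), ([2, 2], [144, -36, 36]), ([3, 3], [90, 0, 54]), ([4, 4], [144, 36, 36])] from by decide +kernel]
  simp only [pev, cev, mev]; push_cast; ring

section
variable {A : Type} [CommRing A]

def v1 (S : Sys A) : Nat → A := fun i => ([S.K, S.u, S.t 0, S.t 1, S.t 2, S.Y 0, S.Y 1, S.Y 2, S.Y 3, S.e 1 (S.Y 2), S.e 0 (S.Y 0), S.e 1 (S.Y 0), S.e 2 (S.Y 0), S.e 0 (S.Y 0), S.e 0 (S.Y 1), S.e 0 (S.Y 2), S.e 0 (S.Y 3), S.e 1 (S.Y 0), S.e 1 (S.Y 1), S.e 1 (S.Y 2), S.e 1 (S.Y 3), S.e 2 (S.Y 0), S.e 2 (S.Y 1), S.e 2 (S.Y 2), S.e 2 (S.Y 3)] : List A).getD i 0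

def v2 (S : Sys A) : Nat → A := fun i => ([S.K, S.u, S.t 0, S.t 1, S.t 2, S.Y 0, S.Y 1, S.Y 2, S.Y 3, S.e 1 (S.Y 2), S.e 0 (S.Y 0), S.e 1 (S.Y 0), S.e 2 (S.Y 0), S.e 0 (S.e 1 (S.Y 2)), S.e 0 (S.e 0 (S.Y 0)), S.e 0 (S.e 1 (S.Y 0)), S.e 0 (S.e 2 (S.Y 0)), S.e 1 (S.e 1 (S.Y 2)), S.e 1 (S.e 0 (S.Y 0)), S.e 1 (S.e 1 (S.Y 0)), S.e 1 (S.e 2 (S.Y 0)), S.e 2 (S.e 1 (S.Y 2)), S.e 2 (S.e 0 (S.Y 0)), S.e 2 (S.e 1 (S.Y 0)), S.e 2 (S.e 2 (S.Y 0))] : List A).getD i 0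

theorem v1_0 (S : Sys A) : v1 S 0 = S.K := rfl
theorem v1_1 (S : Sys A) : v1 S 1 = S.u := rfl
theorem v1_2 (S : Sys A) : v1 S 2 = S.t 0 := rfl
theorem v1_3 (S : Sys A) : v1 S 3 = S.t 1 := rfl
theorem v1_4 (S : Sys A) : v1 S 4 = S.t 2 := rfl
theorem v1_5 (S : Sys A) : v1 S 5 = S.Y 0 := rfl
theorem v1_6 (S : Sys A) : v1 S 6 = S.Y 1 := rfl
theorem v1_7 (S : Sys A) : v1 S 7 = S.Y 2 := rfl
theorem v1_8 (S : Sys A) : v1 S 8 = S.Y 3 := rfl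
theorem v1_9 (S : Sys A) : v1 S 9 = S.e 1 (S.Y 2) := rfl
theorem v1_10 (S : Sys A) : v1 S 10 = S.e 0 (S.Y 0) := rfl
theorem v1_11 (S : Sys A) : v1 S 11 = S.e 1 (S.Y 0) := rfl
theorem v1_12 (S : Sys A) : v1 S 12 = S.e 2 (S.Y 0) := rfl
theorem v1_13 (S : Sys A) : v1 S 13 = S.e 0 (S.Y 0) := rfl
theorem v1_14 (S : Sys A) : v1 S 14 = S.e 0 (S.Y 1) := rfl
theorem v1_15 (S : Sys A) : v1 S 15 = S.e 0 (S.Y 2) := rfl
theorem v1_16 (S : Sys A) : v1 S 16 = S.e 0 (S.Y 3) := rfl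
theorem v1_17 (S : Sys A) : v1 S 17 = S.e 1 (S.Y 0) := rfl
theorem v1_18 (S : Sys A) : v1 S 18 = S.e 1 (S.Y 1) := rfl
theorem v1_19 (S : Sys A) : v1 S 19 = S.e 1 (S.Y 2) := rfl
theorem v1_20 (S : Sys A) : v1 S 20 = S.e 1 (S.Y 3) := rfl
theorem v1_21 (S : Sys A) : v1 S 21 = S.e 2 (S.Y 0) := rfl
theorem v1_22 (S : Sys A) : v1 S 22 = S.e 2 (S.Y 1) := rfl
theorem v1_23 (S : Sys A) : v1 S 23 = S.e 2 (S.Y 2) := rfl
theorem v1_24 (S : Sys A) : v1 S 24 = S.e 2 (S.Y 3) := rfl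
theorem v2_0 (S : Sys A) : v2 S 0 = S.K := rfl
theorem v2_1 (S : Sys A) : v2 S 1 = S.u := rfl
theorem v2_2 (S : Sys A) : v2 S 2 = S.t 0 := rfl
theorem v2_3 (S : Sys A) : v2 S 3 = S.t 1 := rfl
theorem v2_4 (S : Sys A) : v2 S 4 = S.t 2 := rfl
theorem v2_5 (S : Sys A) : v2 S 5 = S.Y 0 := rfl
theorem v2_6 (S : Sys A) : v2 S 6 = S.Y 1 := rfl
theorem v2_7 (S : Sys A) : v2 S 7 = S.Y 2 := rfl
theorem v2_8 (S : Sys A) : v2 S 8 = S.Y 3 := rfl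
theorem v2_9 (S : Sys A) : v2 S 9 = S.e 1 (S.Y 2) := rfl
theorem v2_10 (S : Sys A) : v2 S 10 = S.e 0 (S.Y 0) := rfl
theorem v2_11 (S : Sys A) : v2 S 11 = S.e 1 (S.Y 0) := rfl
theorem v2_12 (S : Sys A) : v2 S 12 = S.e 2 (S.Y 0) := rfl
theorem v2_13 (S : Sys A) : v2 S 13 = S.e 0 (S.e 1 (S.Y 2)) := rfl
theorem v2_14 (S : Sys A) : v2 S 14 = S.e 0 (S.e 0 (S.Y 0)) := rfl
theorem v2_15 (S : Sys A) : v2 S 15 = S.e 0 (S.e 1 (S.Y 0)) := rfl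
theorem v2_16 (S : Sys A) : v2 S 16 = S.e 0 (S.e 2 (S.Y 0)) := rfl
theorem v2_17 (S : Sys A) : v2 S 17 = S.e 1 (S.e 1 (S.Y 2)) := rfl
theorem v2_18 (S : Sys A) : v2 S 18 = S.e 1 (S.e 0 (S.Y 0)) := rfl
theorem v2_19 (S : Sys A) : v2 S 19 = S.e 1 (S.e 1 (S.Y 0)) := rfl
theorem v2_20 (S : Sys A) : v2 S 20 = S.e 1 (S.e 2 (S.Y 0)) := rfl
theorem v2_21 (S : Sys A) : v2 S 21 = S.e 2 (S.e 1 (S.Y 2)) := rfl
theorem v2_22 (S : Sys A) : v2 S 22 = S.e 2 (S.e 0 (S.Y 0)) := rfl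
theorem v2_23 (S : Sys A) : v2 S 23 = S.e 2 (S.e 1 (S.Y 0)) := rfl
theorem v2_24 (S : Sys A) : v2 S 24 = S.e 2 (S.e 2 (S.Y 0)) := rfl

theorem agree12 (S : Sys A) (P : Po) (h : ltP 13 P = true) :
    pev S.r (v1 S) P = pev S.r (v2 S) P := by
  refine pev_agree S.r (v1 S) (v2 S) 13 ?_ P h
  intro i hi
  interval_cases i <;> rfl

theorem hr1_0 (S : Sys A) : ((18 : ℕ) : A) * (1 + S.r) ^ 1 * (1 - S.r) ^ 1 * S.e 0 S.r
    = pev S.r (v1 S) Jt1.dr0 := by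
  rw [x_dr0]; simp only [v1_0, v1_1, v1_2, v1_3, v1_4, v1_5, v1_6, v1_7, v1_8, v1_9, v1_10, v1_11, v1_12, v1_13, v1_14, v1_15, v1_16, v1_17, v1_18, v1_19, v1_20, v1_21, v1_22, v1_23, v1_24]; push_cast
  linear_combination (18 * (1 + S.r) * (1 - S.r)) * S.er 0

theorem hv1_0_0 (S : Sys A) : ((18 : ℕ) : A) * (1 + S.r) ^ 1 * (1 - S.r) ^ 1 * S.e 0 (v1 S 0)
    = pev S.r (v1 S) Jt1.dv0_0 := by
  rw [x_dv0_0]; simp only [v1_0, v1_1, v1_2, v1_3, v1_4, v1_5, v1_6, v1_7, v1_8, v1_9, v1_10, v1_11, v1_12, v1_13, v1_14, v1_15, v1_16, v1_17, v1_18, v1_19, v1_20, v1_21, v1_22, v1_23, v1_24]; push_cast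
  linear_combination (18 * (1 + S.r) * (1 - S.r)) * S.eK 0

theorem hv1_0_1 (S : Sys A) : ((18 : ℕ) : A) * (1 + S.r) ^ 1 * (1 - S.r) ^ 1 * S.e 0 (v1 S 1)
    = pev S.r (v1 S) Jt1.dv0_1 := by
  rw [x_dv0_1]; simp only [v1_0, v1_1, v1_2, v1_3, v1_4, v1_5, v1_6, v1_7, v1_8, v1_9, v1_10, v1_11, v1_12, v1_13, v1_14, v1_15, v1_16, v1_17, v1_18, v1_19, v1_20, v1_21, v1_22, v1_23, v1_24]; push_cast
  linear_combination (18) * S.eu0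

theorem hv1_0_2 (S : Sys A) : ((18 : ℕ) : A) * (1 + S.r) ^ 1 * (1 - S.r) ^ 1 * S.e 0 (v1 S 2)
    = pev S.r (v1 S) Jt1.dv0_2 := by
  rw [x_dv0_2]; simp only [v1_0, v1_1, v1_2, v1_3, v1_4, v1_5, v1_6, v1_7, v1_8, v1_9, v1_10, v1_11, v1_12, v1_13, v1_14, v1_15, v1_16, v1_17, v1_18, v1_19, v1_20, v1_21, v1_22, v1_23, v1_24]; push_cast
  linear_combination (1) * S.et00

theorem hv1_0_3 (S : Sys A) : ((18 : ℕ) : A) * (1 + S.r) ^ 1 * (1 - S.r) ^ 1 * S.e 0 (v1 S 3)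
    = pev S.r (v1 S) Jt1.dv0_3 := by
  rw [x_dv0_3]; simp only [v1_0, v1_1, v1_2, v1_3, v1_4, v1_5, v1_6, v1_7, v1_8, v1_9, v1_10, v1_11, v1_12, v1_13, v1_14, v1_15, v1_16, v1_17, v1_18, v1_19, v1_20, v1_21, v1_22, v1_23, v1_24]; push_cast
  linear_combination (18) * S.et01

theorem hv1_0_4 (S : Sys A) : ((18 : ℕ) : A) * (1 + S.r) ^ 1 * (1 - S.r) ^ 1 * S.e 0 (v1 S 4)
    = pev S.r (v1 S) Jt1.dv0_4 := by
  rw [x_dv0_4]; simp only [v1_0, v1_1, v1_2, v1_3, v1_4, v1_5, v1_6, v1_7, v1_8, v1_9, v1_10, v1_11, v1_12, v1_13, v1_14, v1_15, v1_16, v1_17, v1_18, v1_19, v1_20, v1_21, v1_22, v1_23, v1_24]; push_cast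
  linear_combination (9 * (1 - S.r)) * S.et02

theorem hv1_0_5 (S : Sys A) : ((18 : ℕ) : A) * (1 + S.r) ^ 1 * (1 - S.r) ^ 1 * S.e 0 (v1 S 5)
    = pev S.r (v1 S) Jt1.dv0_5 := by
  rw [x_dv0_5]; simp only [v1_0, v1_1, v1_2, v1_3, v1_4, v1_5, v1_6, v1_7, v1_8, v1_9, v1_10, v1_11, v1_12, v1_13, v1_14, v1_15, v1_16, v1_17, v1_18, v1_19, v1_20, v1_21, v1_22, v1_23, v1_24]; push_cast
  ring

theorem hv1_0_6 (S : Sys A) : ((18 : ℕ) : A) * (1 + S.r) ^ 1 * (1 - S.r) ^ 1 * S.e 0 (v1 S 6)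
    = pev S.r (v1 S) Jt1.dv0_6 := by
  rw [x_dv0_6]; simp only [v1_0, v1_1, v1_2, v1_3, v1_4, v1_5, v1_6, v1_7, v1_8, v1_9, v1_10, v1_11, v1_12, v1_13, v1_14, v1_15, v1_16, v1_17, v1_18, v1_19, v1_20, v1_21, v1_22, v1_23, v1_24]; push_cast
  ring

theorem hv1_0_7 (S : Sys A) : ((18 : ℕ) : A) * (1 + S.r) ^ 1 * (1 - S.r) ^ 1 * S.e 0 (v1 S 7)
    = pev S.r (v1 S) Jt1.dv0_7 := by
  rw [x_dv0_7]; simp only [v1_0, v1_1, v1_2, v1_3, v1_4, v1_5, v1_6, v1_7, v1_8, v1_9, v1_10, v1_11, v1_12, v1_13, v1_14, v1_15, v1_16, v1_17, v1_18, v1_19, v1_20, v1_21, v1_22, v1_23, v1_24]; push_cast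
  ring

theorem hv1_0_8 (S : Sys A) : ((18 : ℕ) : A) * (1 + S.r) ^ 1 * (1 - S.r) ^ 1 * S.e 0 (v1 S 8)
    = pev S.r (v1 S) Jt1.dv0_8 := by
  rw [x_dv0_8]; simp only [v1_0, v1_1, v1_2, v1_3, v1_4, v1_5, v1_6, v1_7, v1_8, v1_9, v1_10, v1_11, v1_12, v1_13, v1_14, v1_15, v1_16, v1_17, v1_18, v1_19, v1_20, v1_21, v1_22, v1_23, v1_24]; push_cast
  ring

theorem hr1_1 (S : Sys A) : ((18 : ℕ) : A) * (1 + S.r) ^ 1 * (1 - S.r) ^ 1 * S.e 1 S.r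
    = pev S.r (v1 S) Jt1.dr1 := by
  rw [x_dr1]; simp only [v1_0, v1_1, v1_2, v1_3, v1_4, v1_5, v1_6, v1_7, v1_8, v1_9, v1_10, v1_11, v1_12, v1_13, v1_14, v1_15, v1_16, v1_17, v1_18, v1_19, v1_20, v1_21, v1_22, v1_23, v1_24]; push_cast
  linear_combination (18 * (1 + S.r) * (1 - S.r)) * S.er 1

theorem hv1_1_0 (S : Sys A) : ((18 : ℕ) : A) * (1 + S.r) ^ 1 * (1 - S.r) ^ 1 * S.e 1 (v1 S 0)
    = pev S.r (v1 S) Jt1.dv1_0 := by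
  rw [x_dv1_0]; simp only [v1_0, v1_1, v1_2, v1_3, v1_4, v1_5, v1_6, v1_7, v1_8, v1_9, v1_10, v1_11, v1_12, v1_13, v1_14, v1_15, v1_16, v1_17, v1_18, v1_19, v1_20, v1_21, v1_22, v1_23, v1_24]; push_cast
  linear_combination (18 * (1 + S.r) * (1 - S.r)) * S.eK 1

theorem hv1_1_1 (S : Sys A) : ((18 : ℕ) : A) * (1 + S.r) ^ 1 * (1 - S.r) ^ 1 * S.e 1 (v1 S 1)
    = pev S.r (v1 S) Jt1.dv1_1 := by
  rw [x_dv1_1]; simp only [v1_0, v1_1, v1_2, v1_3, v1_4, v1_5, v1_6, v1_7, v1_8, v1_9, v1_10, v1_11, v1_12, v1_13, v1_14, v1_15, v1_16, v1_17, v1_18, v1_19, v1_20, v1_21, v1_22, v1_23, v1_24]; push_cast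
  linear_combination (18) * S.eu1

theorem hv1_1_2 (S : Sys A) : ((18 : ℕ) : A) * (1 + S.r) ^ 1 * (1 - S.r) ^ 1 * S.e 1 (v1 S 2)
    = pev S.r (v1 S) Jt1.dv1_2 := by
  rw [x_dv1_2]; simp only [v1_0, v1_1, v1_2, v1_3, v1_4, v1_5, v1_6, v1_7, v1_8, v1_9, v1_10, v1_11, v1_12, v1_13, v1_14, v1_15, v1_16, v1_17, v1_18, v1_19, v1_20, v1_21, v1_22, v1_23, v1_24]; push_cast
  linear_combination (9 * (1 + S.r)) * S.et10

theorem hv1_1_3 (S : Sys A) : ((18 : ℕ) : A) * (1 + S.r) ^ 1 * (1 - S.r) ^ 1 * S.e 1 (v1 S 3)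
    = pev S.r (v1 S) Jt1.dv1_3 := by
  rw [x_dv1_3]; simp only [v1_0, v1_1, v1_2, v1_3, v1_4, v1_5, v1_6, v1_7, v1_8, v1_9, v1_10, v1_11, v1_12, v1_13, v1_14, v1_15, v1_16, v1_17, v1_18, v1_19, v1_20, v1_21, v1_22, v1_23, v1_24]; push_cast
  linear_combination (18) * S.et11

theorem hv1_1_4 (S : Sys A) : ((18 : ℕ) : A) * (1 + S.r) ^ 1 * (1 - S.r) ^ 1 * S.e 1 (v1 S 4)
    = pev S.r (v1 S) Jt1.dv1_4 := by
  rw [x_dv1_4]; simp only [v1_0, v1_1, v1_2, v1_3, v1_4, v1_5, v1_6, v1_7, v1_8, v1_9, v1_10, v1_11, v1_12, v1_13, v1_14, v1_15, v1_16, v1_17, v1_18, v1_19, v1_20, v1_21, v1_22, v1_23, v1_24]; push_cast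
  linear_combination (9 * (1 - S.r)) * S.et12

theorem hv1_1_5 (S : Sys A) : ((18 : ℕ) : A) * (1 + S.r) ^ 1 * (1 - S.r) ^ 1 * S.e 1 (v1 S 5)
    = pev S.r (v1 S) Jt1.dv1_5 := by
  rw [x_dv1_5]; simp only [v1_0, v1_1, v1_2, v1_3, v1_4, v1_5, v1_6, v1_7, v1_8, v1_9, v1_10, v1_11, v1_12, v1_13, v1_14, v1_15, v1_16, v1_17, v1_18, v1_19, v1_20, v1_21, v1_22, v1_23, v1_24]; push_cast
  ring

theorem hv1_1_6 (S : Sys A) : ((18 : ℕ) : A) * (1 + S.r) ^ 1 * (1 - S.r) ^ 1 * S.e 1 (v1 S 6)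
    = pev S.r (v1 S) Jt1.dv1_6 := by
  rw [x_dv1_6]; simp only [v1_0, v1_1, v1_2, v1_3, v1_4, v1_5, v1_6, v1_7, v1_8, v1_9, v1_10, v1_11, v1_12, v1_13, v1_14, v1_15, v1_16, v1_17, v1_18, v1_19, v1_20, v1_21, v1_22, v1_23, v1_24]; push_cast
  ring

theorem hv1_1_7 (S : Sys A) : ((18 : ℕ) : A) * (1 + S.r) ^ 1 * (1 - S.r) ^ 1 * S.e 1 (v1 S 7)
    = pev S.r (v1 S) Jt1.dv1_7 := by
  rw [x_dv1_7]; simp only [v1_0, v1_1, v1_2, v1_3, v1_4, v1_5, v1_6, v1_7, v1_8, v1_9, v1_10, v1_11, v1_12, v1_13, v1_14, v1_15, v1_16, v1_17, v1_18, v1_19, v1_20, v1_21, v1_22, v1_23, v1_24]; push_cast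
  ring

theorem hv1_1_8 (S : Sys A) : ((18 : ℕ) : A) * (1 + S.r) ^ 1 * (1 - S.r) ^ 1 * S.e 1 (v1 S 8)
    = pev S.r (v1 S) Jt1.dv1_8 := by
  rw [x_dv1_8]; simp only [v1_0, v1_1, v1_2, v1_3, v1_4, v1_5, v1_6, v1_7, v1_8, v1_9, v1_10, v1_11, v1_12, v1_13, v1_14, v1_15, v1_16, v1_17, v1_18, v1_19, v1_20, v1_21, v1_22, v1_23, v1_24]; push_cast
  ring

theorem hr1_2 (S : Sys A) : ((18 : ℕ) : A) * (1 + S.r) ^ 1 * (1 - S.r) ^ 1 * S.e 2 S.r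
    = pev S.r (v1 S) Jt1.dr2 := by
  rw [x_dr2]; simp only [v1_0, v1_1, v1_2, v1_3, v1_4, v1_5, v1_6, v1_7, v1_8, v1_9, v1_10, v1_11, v1_12, v1_13, v1_14, v1_15, v1_16, v1_17, v1_18, v1_19, v1_20, v1_21, v1_22, v1_23, v1_24]; push_cast
  linear_combination (18 * (1 + S.r) * (1 - S.r)) * S.er 2

theorem hv1_2_0 (S : Sys A) : ((18 : ℕ) : A) * (1 + S.r) ^ 1 * (1 - S.r) ^ 1 * S.e 2 (v1 S 0)
    = pev S.r (v1 S) Jt1.dv2_0 := by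
  rw [x_dv2_0]; simp only [v1_0, v1_1, v1_2, v1_3, v1_4, v1_5, v1_6, v1_7, v1_8, v1_9, v1_10, v1_11, v1_12, v1_13, v1_14, v1_15, v1_16, v1_17, v1_18, v1_19, v1_20, v1_21, v1_22, v1_23, v1_24]; push_cast
  linear_combination (18 * (1 + S.r) * (1 - S.r)) * S.eK 2

theorem hv1_2_1 (S : Sys A) : ((18 : ℕ) : A) * (1 + S.r) ^ 1 * (1 - S.r) ^ 1 * S.e 2 (v1 S 1)
    = pev S.r (v1 S) Jt1.dv2_1 := by
  rw [x_dv2_1]; simp only [v1_0, v1_1, v1_2, v1_3, v1_4, v1_5, v1_6, v1_7, v1_8, v1_9, v1_10, v1_11, v1_12, v1_13, v1_14, v1_15, v1_16, v1_17, v1_18, v1_19, v1_20, v1_21, v1_22, v1_23, v1_24]; push_cast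
  linear_combination (18) * S.eu2

theorem hv1_2_2 (S : Sys A) : ((18 : ℕ) : A) * (1 + S.r) ^ 1 * (1 - S.r) ^ 1 * S.e 2 (v1 S 2)
    = pev S.r (v1 S) Jt1.dv2_2 := by
  rw [x_dv2_2]; simp only [v1_0, v1_1, v1_2, v1_3, v1_4, v1_5, v1_6, v1_7, v1_8, v1_9, v1_10, v1_11, v1_12, v1_13, v1_14, v1_15, v1_16, v1_17, v1_18, v1_19, v1_20, v1_21, v1_22, v1_23, v1_24]; push_cast
  linear_combination (9 * (1 + S.r)) * S.et20

theorem hv1_2_3 (S : Sys A) : ((18 : ℕ) : A) * (1 + S.r) ^ 1 * (1 - S.r) ^ 1 * S.e 2 (v1 S 3)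
    = pev S.r (v1 S) Jt1.dv2_3 := by
  rw [x_dv2_3]; simp only [v1_0, v1_1, v1_2, v1_3, v1_4, v1_5, v1_6, v1_7, v1_8, v1_9, v1_10, v1_11, v1_12, v1_13, v1_14, v1_15, v1_16, v1_17, v1_18, v1_19, v1_20, v1_21, v1_22, v1_23, v1_24]; push_cast
  linear_combination (18) * S.et21

theorem hv1_2_4 (S : Sys A) : ((18 : ℕ) : A) * (1 + S.r) ^ 1 * (1 - S.r) ^ 1 * S.e 2 (v1 S 4)
    = pev S.r (v1 S) Jt1.dv2_4 := by
  rw [x_dv2_4]; simp only [v1_0, v1_1, v1_2, v1_3, v1_4, v1_5, v1_6, v1_7, v1_8, v1_9, v1_10, v1_11, v1_12, v1_13, v1_14, v1_15, v1_16, v1_17, v1_18, v1_19, v1_20, v1_21, v1_22, v1_23, v1_24]; push_cast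
  linear_combination (1) * S.et22

theorem hv1_2_5 (S : Sys A) : ((18 : ℕ) : A) * (1 + S.r) ^ 1 * (1 - S.r) ^ 1 * S.e 2 (v1 S 5)
    = pev S.r (v1 S) Jt1.dv2_5 := by
  rw [x_dv2_5]; simp only [v1_0, v1_1, v1_2, v1_3, v1_4, v1_5, v1_6, v1_7, v1_8, v1_9, v1_10, v1_11, v1_12, v1_13, v1_14, v1_15, v1_16, v1_17, v1_18, v1_19, v1_20, v1_21, v1_22, v1_23, v1_24]; push_cast
  ring

theorem hv1_2_6 (S : Sys A) : ((18 : ℕ) : A) * (1 + S.r) ^ 1 * (1 - S.r) ^ 1 * S.e 2 (v1 S 6)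
    = pev S.r (v1 S) Jt1.dv2_6 := by
  rw [x_dv2_6]; simp only [v1_0, v1_1, v1_2, v1_3, v1_4, v1_5, v1_6, v1_7, v1_8, v1_9, v1_10, v1_11, v1_12, v1_13, v1_14, v1_15, v1_16, v1_17, v1_18, v1_19, v1_20, v1_21, v1_22, v1_23, v1_24]; push_cast
  ring

theorem hv1_2_7 (S : Sys A) : ((18 : ℕ) : A) * (1 + S.r) ^ 1 * (1 - S.r) ^ 1 * S.e 2 (v1 S 7)
    = pev S.r (v1 S) Jt1.dv2_7 := by
  rw [x_dv2_7]; simp only [v1_0, v1_1, v1_2, v1_3, v1_4, v1_5, v1_6, v1_7, v1_8, v1_9, v1_10, v1_11, v1_12, v1_13, v1_14, v1_15, v1_16, v1_17, v1_18, v1_19, v1_20, v1_21, v1_22, v1_23, v1_24]; push_cast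
  ring

theorem hv1_2_8 (S : Sys A) : ((18 : ℕ) : A) * (1 + S.r) ^ 1 * (1 - S.r) ^ 1 * S.e 2 (v1 S 8)
    = pev S.r (v1 S) Jt1.dv2_8 := by
  rw [x_dv2_8]; simp only [v1_0, v1_1, v1_2, v1_3, v1_4, v1_5, v1_6, v1_7, v1_8, v1_9, v1_10, v1_11, v1_12, v1_13, v1_14, v1_15, v1_16, v1_17, v1_18, v1_19, v1_20, v1_21, v1_22, v1_23, v1_24]; push_cast
  ring

theorem ht1_0 (S : Sys A) (g : A) : 2 * (1 + S.r) * (1 - S.r) * (S.e 0 (S.e 1 g) - S.e 1 (S.e 0 g))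
    = pev S.r (v1 S) Jt1.br0_0 * S.e 0 g + pev S.r (v1 S) Jt1.br0_1 * S.e 1 g + pev S.r (v1 S) Jt1.br0_2 * S.e 2 g := by
  rw [x_br0_0, x_br0_1, x_br0_2]; simp only [v1_0, v1_1, v1_2, v1_3, v1_4, v1_5, v1_6, v1_7, v1_8, v1_9, v1_10, v1_11, v1_12, v1_13, v1_14, v1_15, v1_16, v1_17, v1_18, v1_19, v1_20, v1_21, v1_22, v1_23, v1_24]
  linear_combination S.tors01 g

theorem ht1_1 (S : Sys A) (g : A) : 2 * (1 + S.r) * (1 - S.r) * (S.e 1 (S.e 2 g) - S.e 2 (S.e 1 g))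
    = pev S.r (v1 S) Jt1.br1_0 * S.e 0 g + pev S.r (v1 S) Jt1.br1_1 * S.e 1 g + pev S.r (v1 S) Jt1.br1_2 * S.e 2 g := by
  rw [x_br1_0, x_br1_1, x_br1_2]; simp only [v1_0, v1_1, v1_2, v1_3, v1_4, v1_5, v1_6, v1_7, v1_8, v1_9, v1_10, v1_11, v1_12, v1_13, v1_14, v1_15, v1_16, v1_17, v1_18, v1_19, v1_20, v1_21, v1_22, v1_23, v1_24]
  linear_combination S.tors12 g

theorem ht1_2 (S : Sys A) (g : A) : 2 * (1 + S.r) * (1 - S.r) * (S.e 2 (S.e 0 g) - S.e 0 (S.e 2 g))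
    = pev S.r (v1 S) Jt1.br2_0 * S.e 0 g + pev S.r (v1 S) Jt1.br2_1 * S.e 1 g + pev S.r (v1 S) Jt1.br2_2 * S.e 2 g := by
  rw [x_br2_0, x_br2_1, x_br2_2]; simp only [v1_0, v1_1, v1_2, v1_3, v1_4, v1_5, v1_6, v1_7, v1_8, v1_9, v1_10, v1_11, v1_12, v1_13, v1_14, v1_15, v1_16, v1_17, v1_18, v1_19, v1_20, v1_21, v1_22, v1_23, v1_24]
  linear_combination S.tors20 g

theorem holds1 (S : Sys A) : Holds Jt1.T S.e S.r (v1 S) where
  qpos := by decide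
  apos := by decide
  bpos := by decide
  unit1 := S.unit1
  unit3 := S.unit3
  unitN := S.unitN
  hr := by
    intro l
    fin_cases l
    exacts [hr1_0 S, hr1_1 S, hr1_2 S]
  hv := by
    intro l i hi
    change i < 9 at hi
    fin_cases l
    · interval_cases i
      exacts [hv1_0_0 S, hv1_0_1 S, hv1_0_2 S, hv1_0_3 S, hv1_0_4 S, hv1_0_5 S, hv1_0_6 S, hv1_0_7 S, hv1_0_8 S]
    · interval_cases i
      exacts [hv1_1_0 S, hv1_1_1 S, hv1_1_2 S, hv1_1_3 S, hv1_1_4 S, hv1_1_5 S, hv1_1_6 S, hv1_1_7 S, hv1_1_8 S]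
    · interval_cases i
      exacts [hv1_2_0 S, hv1_2_1 S, hv1_2_2 S, hv1_2_3 S, hv1_2_4 S, hv1_2_5 S, hv1_2_6 S, hv1_2_7 S, hv1_2_8 S]
  tors := by
    intro p hp g
    interval_cases p
    exacts [ht1_0 S g, ht1_1 S g, ht1_2 S g]

theorem hz0 (S : Sys A) : pev S.r (v1 S) Jt1.z0 = 0 := by
  rw [x_z0]; simp only [v1_0, v1_1, v1_2, v1_3, v1_4, v1_5, v1_6, v1_7, v1_8, v1_9, v1_10, v1_11, v1_12, v1_13, v1_14, v1_15, v1_16, v1_17, v1_18, v1_19, v1_20, v1_21, v1_22, v1_23, v1_24]; ring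

theorem hz1 (S : Sys A) : pev S.r (v1 S) Jt1.z1 = 0 := by
  rw [x_z1]; simp only [v1_0, v1_1, v1_2, v1_3, v1_4, v1_5, v1_6, v1_7, v1_8, v1_9, v1_10, v1_11, v1_12, v1_13, v1_14, v1_15, v1_16, v1_17, v1_18, v1_19, v1_20, v1_21, v1_22, v1_23, v1_24]; ring

theorem hz2 (S : Sys A) : pev S.r (v1 S) Jt1.z2 = 0 := by
  rw [x_z2]; simp only [v1_0, v1_1, v1_2, v1_3, v1_4, v1_5, v1_6, v1_7, v1_8, v1_9, v1_10, v1_11, v1_12, v1_13, v1_14, v1_15, v1_16, v1_17, v1_18, v1_19, v1_20, v1_21, v1_22, v1_23, v1_24]; ring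

theorem hz3 (S : Sys A) : pev S.r (v1 S) Jt1.z3 = 0 := by
  rw [x_z3]; simp only [v1_0, v1_1, v1_2, v1_3, v1_4, v1_5, v1_6, v1_7, v1_8, v1_9, v1_10, v1_11, v1_12, v1_13, v1_14, v1_15, v1_16, v1_17, v1_18, v1_19, v1_20, v1_21, v1_22, v1_23, v1_24]; ring

theorem hz4 (S : Sys A) : pev S.r (v1 S) Jt1.z4 = 0 :=
  step (holds1 S) Jt1.ck4 (List.forall_mem_cons.2 ⟨hz0 S, List.forall_mem_cons.2 ⟨hz1 S, List.forall_mem_cons.2 ⟨hz2 S, List.forall_mem_cons.2 ⟨hz3 S, List.forall_mem_nil _⟩⟩⟩⟩)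

theorem hz5 (S : Sys A) : pev S.r (v1 S) Jt1.z5 = 0 :=
  step (holds1 S) Jt1.ck5 (List.forall_mem_cons.2 ⟨hz0 S, List.forall_mem_cons.2 ⟨hz1 S, List.forall_mem_cons.2 ⟨hz2 S, List.forall_mem_cons.2 ⟨hz3 S, List.forall_mem_cons.2 ⟨hz4 S, List.forall_mem_nil _⟩⟩⟩⟩⟩)

theorem hz6 (S : Sys A) : pev S.r (v1 S) Jt1.z6 = 0 :=
  step (holds1 S) Jt1.ck6 (List.forall_mem_cons.2 ⟨hz0 S, List.forall_mem_cons.2 ⟨hz1 S, List.forall_mem_cons.2 ⟨hz2 S, List.forall_mem_cons.2 ⟨hz3 S, List.forall_mem_cons.2 ⟨hz4 S, List.forall_mem_cons.2 ⟨hz5 S, List.forall_mem_nil _⟩⟩⟩⟩⟩⟩)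

theorem hz7 (S : Sys A) : pev S.r (v1 S) Jt1.z7 = 0 :=
  step (holds1 S) Jt1.ck7 (List.forall_mem_cons.2 ⟨hz0 S, List.forall_mem_cons.2 ⟨hz1 S, List.forall_mem_cons.2 ⟨hz2 S, List.forall_mem_cons.2 ⟨hz3 S, List.forall_mem_cons.2 ⟨hz4 S, List.forall_mem_cons.2 ⟨hz5 S, List.forall_mem_cons.2 ⟨hz6 S, List.forall_mem_nil _⟩⟩⟩⟩⟩⟩⟩)

theorem hz8 (S : Sys A) : pev S.r (v1 S) Jt1.z8 = 0 :=
  step (holds1 S) Jt1.ck8 (List.forall_mem_cons.2 ⟨hz0 S, List.forall_mem_cons.2 ⟨hz1 S, List.forall_mem_cons.2 ⟨hz2 S, List.forall_mem_cons.2 ⟨hz3 S, List.forall_mem_cons.2 ⟨hz4 S, List.forall_mem_cons.2 ⟨hz5 S, List.forall_mem_cons.2 ⟨hz6 S, List.forall_mem_cons.2 ⟨hz7 S, List.forall_mem_nil _⟩⟩⟩⟩⟩⟩⟩⟩)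

theorem hz9 (S : Sys A) : pev S.r (v1 S) Jt1.z9 = 0 :=
  step (holds1 S) Jt1.ck9 (List.forall_mem_cons.2 ⟨hz0 S, List.forall_mem_cons.2 ⟨hz1 S, List.forall_mem_cons.2 ⟨hz2 S, List.forall_mem_cons.2 ⟨hz3 S, List.forall_mem_cons.2 ⟨hz4 S, List.forall_mem_cons.2 ⟨hz5 S, List.forall_mem_cons.2 ⟨hz6 S, List.forall_mem_cons.2 ⟨hz7 S, List.forall_mem_cons.2 ⟨hz8 S, List.forall_mem_nil _⟩⟩⟩⟩⟩⟩⟩⟩⟩)

theorem hz10 (S : Sys A) : pev S.r (v1 S) Jt1.z10 = 0 :=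
  step (holds1 S) Jt1.ck10 (List.forall_mem_cons.2 ⟨hz0 S, List.forall_mem_cons.2 ⟨hz1 S, List.forall_mem_cons.2 ⟨hz2 S, List.forall_mem_cons.2 ⟨hz3 S, List.forall_mem_cons.2 ⟨hz4 S, List.forall_mem_cons.2 ⟨hz5 S, List.forall_mem_cons.2 ⟨hz6 S, List.forall_mem_cons.2 ⟨hz7 S, List.forall_mem_cons.2 ⟨hz8 S, List.forall_mem_cons.2 ⟨hz9 S, List.forall_mem_nil _⟩⟩⟩⟩⟩⟩⟩⟩⟩⟩)

theorem hz11 (S : Sys A) : pev S.r (v1 S) Jt1.z11 = 0 :=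
  step (holds1 S) Jt1.ck11 (List.forall_mem_cons.2 ⟨hz0 S, List.forall_mem_cons.2 ⟨hz1 S, List.forall_mem_cons.2 ⟨hz2 S, List.forall_mem_cons.2 ⟨hz3 S, List.forall_mem_cons.2 ⟨hz4 S, List.forall_mem_cons.2 ⟨hz5 S, List.forall_mem_cons.2 ⟨hz6 S, List.forall_mem_cons.2 ⟨hz7 S, List.forall_mem_cons.2 ⟨hz8 S, List.forall_mem_cons.2 ⟨hz9 S, List.forall_mem_cons.2 ⟨hz10 S, List.forall_mem_nil _⟩⟩⟩⟩⟩⟩⟩⟩⟩⟩⟩)

theorem q0_0 : (Ex.sub (.mul (.lit (unitP 1 1 1)) (.lit Jt1.dv0_0)) (.lit Jt2.dv0_0)).isZero = true := by decide +kernel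
theorem hv2_0_0 (S : Sys A) : ((18 : ℕ) : A) * (1 + S.r) ^ 2 * (1 - S.r) ^ 2 * S.e 0 (v2 S 0)
    = pev S.r (v2 S) Jt2.dv0_0 := by
  rw [← agree12 S _ (by decide +kernel), ← mulEq q0_0, ← hv1_0_0]
  simp only [v1_0, v2_0]; push_cast; ring

theorem q0_1 : (Ex.sub (.mul (.lit (unitP 1 1 1)) (.lit Jt1.dv0_1)) (.lit Jt2.dv0_1)).isZero = true := by decide +kernel
theorem hv2_0_1 (S : Sys A) : ((18 : ℕ) : A) * (1 + S.r) ^ 2 * (1 - S.r) ^ 2 * S.e 0 (v2 S 1)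
    = pev S.r (v2 S) Jt2.dv0_1 := by
  rw [← agree12 S _ (by decide +kernel), ← mulEq q0_1, ← hv1_0_1]
  simp only [v1_1, v2_1]; push_cast; ring

theorem q0_2 : (Ex.sub (.mul (.lit (unitP 1 1 1)) (.lit Jt1.dv0_2)) (.lit Jt2.dv0_2)).isZero = true := by decide +kernel
theorem hv2_0_2 (S : Sys A) : ((18 : ℕ) : A) * (1 + S.r) ^ 2 * (1 - S.r) ^ 2 * S.e 0 (v2 S 2)
    = pev S.r (v2 S) Jt2.dv0_2 := by
  rw [← agree12 S _ (by decide +kernel), ← mulEq q0_2, ← hv1_0_2]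
  simp only [v1_2, v2_2]; push_cast; ring

theorem q0_3 : (Ex.sub (.mul (.lit (unitP 1 1 1)) (.lit Jt1.dv0_3)) (.lit Jt2.dv0_3)).isZero = true := by decide +kernel
theorem hv2_0_3 (S : Sys A) : ((18 : ℕ) : A) * (1 + S.r) ^ 2 * (1 - S.r) ^ 2 * S.e 0 (v2 S 3)
    = pev S.r (v2 S) Jt2.dv0_3 := by
  rw [← agree12 S _ (by decide +kernel), ← mulEq q0_3, ← hv1_0_3]
  simp only [v1_3, v2_3]; push_cast; ring

theorem q0_4 : (Ex.sub (.mul (.lit (unitP 1 1 1)) (.lit Jt1.dv0_4)) (.lit Jt2.dv0_4)).isZero = true := by decide +kernel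
theorem hv2_0_4 (S : Sys A) : ((18 : ℕ) : A) * (1 + S.r) ^ 2 * (1 - S.r) ^ 2 * S.e 0 (v2 S 4)
    = pev S.r (v2 S) Jt2.dv0_4 := by
  rw [← agree12 S _ (by decide +kernel), ← mulEq q0_4, ← hv1_0_4]
  simp only [v1_4, v2_4]; push_cast; ring

theorem hr2_0 (S : Sys A) : ((18 : ℕ) : A) * (1 + S.r) ^ 2 * (1 - S.r) ^ 2 * S.e 0 S.r
    = pev S.r (v2 S) Jt2.dr0 := by
  rw [← agree12 S _ (by decide +kernel), ← mulEq drEq0, ← hr1_0]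
  push_cast; ring

theorem q0_5 : (Ex.sub (.mul (.lit (unitP 18 2 2)) (.lit Jt1.z1)) (.sub (.mul (.lit (unitP 18 2 2)) (.lit [([13], [1])])) (.lit Jt2.dv0_5))).isZero = true := by decide +kernel
theorem hv2_0_5 (S : Sys A) : ((18 : ℕ) : A) * (1 + S.r) ^ 2 * (1 - S.r) ^ 2 * S.e 0 (v2 S 5)
    = pev S.r (v2 S) Jt2.dv0_5 := by
  have h := l3' q0_5 S.r (v1 S)
  change pev S.r (v1 S) (unitP 18 2 2) * pev S.r (v1 S) Jt1.z1 - (pev S.r (v1 S) (unitP 18 2 2)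
    * ((((1 : Int) : A) + S.r * 0) * (v1 S 13 * 1) + 0) - pev S.r (v1 S) Jt2.dv0_5) = 0 at h
  rw [hz1, Y261.BR.pev_unitP S.r _ 18 2 2, agree12 S Jt2.dv0_5 (by decide +kernel), v1_13] at h
  rw [v2_5]
  push_cast at h ⊢
  linear_combination -h

theorem q0_6 : (Ex.sub (.mul (.lit (unitP 3 0 1)) (.lit Jt1.z4)) (.sub (.mul (.lit (unitP 18 2 2)) (.lit [([14], [1])])) (.lit Jt2.dv0_6))).isZero = true := by decide +kernel
theorem hv2_0_6 (S : Sys A) : ((18 : ℕ) : A) * (1 + S.r) ^ 2 * (1 - S.r) ^ 2 * S.e 0 (v2 S 6)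
    = pev S.r (v2 S) Jt2.dv0_6 := by
  have h := l3' q0_6 S.r (v1 S)
  change pev S.r (v1 S) (unitP 3 0 1) * pev S.r (v1 S) Jt1.z4 - (pev S.r (v1 S) (unitP 18 2 2)
    * ((((1 : Int) : A) + S.r * 0) * (v1 S 14 * 1) + 0) - pev S.r (v1 S) Jt2.dv0_6) = 0 at h
  rw [hz4, Y261.BR.pev_unitP S.r _ 18 2 2, agree12 S Jt2.dv0_6 (by decide +kernel), v1_14] at h
  rw [v2_6]
  push_cast at h ⊢
  linear_combination -h

theorem q0_7 : (Ex.sub (.mul (.lit (unitP 1 0 0)) (.lit Jt1.z11)) (.sub (.mul (.lit (unitP 18 2 2)) (.lit [([15], [1])])) (.lit Jt2.dv0_7))).isZero = true := by decide +kernel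
theorem hv2_0_7 (S : Sys A) : ((18 : ℕ) : A) * (1 + S.r) ^ 2 * (1 - S.r) ^ 2 * S.e 0 (v2 S 7)
    = pev S.r (v2 S) Jt2.dv0_7 := by
  have h := l3' q0_7 S.r (v1 S)
  change pev S.r (v1 S) (unitP 1 0 0) * pev S.r (v1 S) Jt1.z11 - (pev S.r (v1 S) (unitP 18 2 2)
    * ((((1 : Int) : A) + S.r * 0) * (v1 S 15 * 1) + 0) - pev S.r (v1 S) Jt2.dv0_7) = 0 at h
  rw [hz11, Y261.BR.pev_unitP S.r _ 18 2 2, agree12 S Jt2.dv0_7 (by decide +kernel), v1_15] at h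
  rw [v2_7]
  push_cast at h ⊢
  linear_combination -h

theorem q0_8 : (Ex.sub (.mul (.lit (unitP 1 0 0)) (.lit Jt1.z8)) (.sub (.mul (.lit (unitP 18 2 2)) (.lit [([16], [1])])) (.lit Jt2.dv0_8))).isZero = true := by decide +kernel
theorem hv2_0_8 (S : Sys A) : ((18 : ℕ) : A) * (1 + S.r) ^ 2 * (1 - S.r) ^ 2 * S.e 0 (v2 S 8)
    = pev S.r (v2 S) Jt2.dv0_8 := by
  have h := l3' q0_8 S.r (v1 S)
  change pev S.r (v1 S) (unitP 1 0 0) * pev S.r (v1 S) Jt1.z8 - (pev S.r (v1 S) (unitP 18 2 2)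
    * ((((1 : Int) : A) + S.r * 0) * (v1 S 16 * 1) + 0) - pev S.r (v1 S) Jt2.dv0_8) = 0 at h
  rw [hz8, Y261.BR.pev_unitP S.r _ 18 2 2, agree12 S Jt2.dv0_8 (by decide +kernel), v1_16] at h
  rw [v2_8]
  push_cast at h ⊢
  linear_combination -h

theorem q0_9 : (Ex.sub (.mul (.lit (unitP 18 2 2)) (.lit [([13], [1])])) (.lit Jt2.dv0_9)).isZero = true := by decide +kernel
theorem hv2_0_9 (S : Sys A) : ((18 : ℕ) : A) * (1 + S.r) ^ 2 * (1 - S.r) ^ 2 * S.e 0 (v2 S 9)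
    = pev S.r (v2 S) Jt2.dv0_9 := by
  have h := mulEq q0_9 S.r (v2 S)
  change _ * ((((1 : Int) : A) + S.r * 0) * (v2 S 13 * 1) + 0) = _ at h
  rw [v2_13] at h
  rw [v2_9]
  push_cast at h ⊢
  linear_combination h

theorem q0_10 : (Ex.sub (.mul (.lit (unitP 18 2 2)) (.lit [([14], [1])])) (.lit Jt2.dv0_10)).isZero = true := by decide +kernel
theorem hv2_0_10 (S : Sys A) : ((18 : ℕ) : A) * (1 + S.r) ^ 2 * (1 - S.r) ^ 2 * S.e 0 (v2 S 10)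
    = pev S.r (v2 S) Jt2.dv0_10 := by
  have h := mulEq q0_10 S.r (v2 S)
  change _ * ((((1 : Int) : A) + S.r * 0) * (v2 S 14 * 1) + 0) = _ at h
  rw [v2_14] at h
  rw [v2_10]
  push_cast at h ⊢
  linear_combination h

theorem q0_11 : (Ex.sub (.mul (.lit (unitP 18 2 2)) (.lit [([15], [1])])) (.lit Jt2.dv0_11)).isZero = true := by decide +kernel
theorem hv2_0_11 (S : Sys A) : ((18 : ℕ) : A) * (1 + S.r) ^ 2 * (1 - S.r) ^ 2 * S.e 0 (v2 S 11)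
    = pev S.r (v2 S) Jt2.dv0_11 := by
  have h := mulEq q0_11 S.r (v2 S)
  change _ * ((((1 : Int) : A) + S.r * 0) * (v2 S 15 * 1) + 0) = _ at h
  rw [v2_15] at h
  rw [v2_11]
  push_cast at h ⊢
  linear_combination h

theorem q0_12 : (Ex.sub (.mul (.lit (unitP 18 2 2)) (.lit [([16], [1])])) (.lit Jt2.dv0_12)).isZero = true := by decide +kernel
theorem hv2_0_12 (S : Sys A) : ((18 : ℕ) : A) * (1 + S.r) ^ 2 * (1 - S.r) ^ 2 * S.e 0 (v2 S 12)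
    = pev S.r (v2 S) Jt2.dv0_12 := by
  have h := mulEq q0_12 S.r (v2 S)
  change _ * ((((1 : Int) : A) + S.r * 0) * (v2 S 16 * 1) + 0) = _ at h
  rw [v2_16] at h
  rw [v2_12]
  push_cast at h ⊢
  linear_combination h

theorem q1_0 : (Ex.sub (.mul (.lit (unitP 1 1 1)) (.lit Jt1.dv1_0)) (.lit Jt2.dv1_0)).isZero = true := by decide +kernel
theorem hv2_1_0 (S : Sys A) : ((18 : ℕ) : A) * (1 + S.r) ^ 2 * (1 - S.r) ^ 2 * S.e 1 (v2 S 0)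
    = pev S.r (v2 S) Jt2.dv1_0 := by
  rw [← agree12 S _ (by decide +kernel), ← mulEq q1_0, ← hv1_1_0]
  simp only [v1_0, v2_0]; push_cast; ring

theorem q1_1 : (Ex.sub (.mul (.lit (unitP 1 1 1)) (.lit Jt1.dv1_1)) (.lit Jt2.dv1_1)).isZero = true := by decide +kernel
theorem hv2_1_1 (S : Sys A) : ((18 : ℕ) : A) * (1 + S.r) ^ 2 * (1 - S.r) ^ 2 * S.e 1 (v2 S 1)
    = pev S.r (v2 S) Jt2.dv1_1 := by
  rw [← agree12 S _ (by decide +kernel), ← mulEq q1_1, ← hv1_1_1]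
  simp only [v1_1, v2_1]; push_cast; ring

theorem q1_2 : (Ex.sub (.mul (.lit (unitP 1 1 1)) (.lit Jt1.dv1_2)) (.lit Jt2.dv1_2)).isZero = true := by decide +kernel
theorem hv2_1_2 (S : Sys A) : ((18 : ℕ) : A) * (1 + S.r) ^ 2 * (1 - S.r) ^ 2 * S.e 1 (v2 S 2)
    = pev S.r (v2 S) Jt2.dv1_2 := by
  rw [← agree12 S _ (by decide +kernel), ← mulEq q1_2, ← hv1_1_2]
  simp only [v1_2, v2_2]; push_cast; ring

theorem q1_3 : (Ex.sub (.mul (.lit (unitP 1 1 1)) (.lit Jt1.dv1_3)) (.lit Jt2.dv1_3)).isZero = true := by decide +kernel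
theorem hv2_1_3 (S : Sys A) : ((18 : ℕ) : A) * (1 + S.r) ^ 2 * (1 - S.r) ^ 2 * S.e 1 (v2 S 3)
    = pev S.r (v2 S) Jt2.dv1_3 := by
  rw [← agree12 S _ (by decide +kernel), ← mulEq q1_3, ← hv1_1_3]
  simp only [v1_3, v2_3]; push_cast; ring

theorem q1_4 : (Ex.sub (.mul (.lit (unitP 1 1 1)) (.lit Jt1.dv1_4)) (.lit Jt2.dv1_4)).isZero = true := by decide +kernel
theorem hv2_1_4 (S : Sys A) : ((18 : ℕ) : A) * (1 + S.r) ^ 2 * (1 - S.r) ^ 2 * S.e 1 (v2 S 4)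
    = pev S.r (v2 S) Jt2.dv1_4 := by
  rw [← agree12 S _ (by decide +kernel), ← mulEq q1_4, ← hv1_1_4]
  simp only [v1_4, v2_4]; push_cast; ring

theorem hr2_1 (S : Sys A) : ((18 : ℕ) : A) * (1 + S.r) ^ 2 * (1 - S.r) ^ 2 * S.e 1 S.r
    = pev S.r (v2 S) Jt2.dr1 := by
  rw [← agree12 S _ (by decide +kernel), ← mulEq drEq1, ← hr1_1]
  push_cast; ring

theorem q1_5 : (Ex.sub (.mul (.lit (unitP 18 2 2)) (.lit Jt1.z2)) (.sub (.mul (.lit (unitP 18 2 2)) (.lit [([17], [1])])) (.lit Jt2.dv1_5))).isZero = true := by decide +kernel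
theorem hv2_1_5 (S : Sys A) : ((18 : ℕ) : A) * (1 + S.r) ^ 2 * (1 - S.r) ^ 2 * S.e 1 (v2 S 5)
    = pev S.r (v2 S) Jt2.dv1_5 := by
  have h := l3' q1_5 S.r (v1 S)
  change pev S.r (v1 S) (unitP 18 2 2) * pev S.r (v1 S) Jt1.z2 - (pev S.r (v1 S) (unitP 18 2 2)
    * ((((1 : Int) : A) + S.r * 0) * (v1 S 17 * 1) + 0) - pev S.r (v1 S) Jt2.dv1_5) = 0 at h
  rw [hz2, Y261.BR.pev_unitP S.r _ 18 2 2, agree12 S Jt2.dv1_5 (by decide +kernel), v1_17] at h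
  rw [v2_5]
  push_cast at h ⊢
  linear_combination -h

theorem q1_6 : (Ex.sub (.mul (.lit (unitP 1 0 1)) (.lit Jt1.z10)) (.sub (.mul (.lit (unitP 18 2 2)) (.lit [([18], [1])])) (.lit Jt2.dv1_6))).isZero = true := by decide +kernel
theorem hv2_1_6 (S : Sys A) : ((18 : ℕ) : A) * (1 + S.r) ^ 2 * (1 - S.r) ^ 2 * S.e 1 (v2 S 6)
    = pev S.r (v2 S) Jt2.dv1_6 := by
  have h := l3' q1_6 S.r (v1 S)
  change pev S.r (v1 S) (unitP 1 0 1) * pev S.r (v1 S) Jt1.z10 - (pev S.r (v1 S) (unitP 18 2 2)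
    * ((((1 : Int) : A) + S.r * 0) * (v1 S 18 * 1) + 0) - pev S.r (v1 S) Jt2.dv1_6) = 0 at h
  rw [hz10, Y261.BR.pev_unitP S.r _ 18 2 2, agree12 S Jt2.dv1_6 (by decide +kernel), v1_18] at h
  rw [v2_6]
  push_cast at h ⊢
  linear_combination -h

theorem q1_7 : (Ex.sub (.mul (.lit (unitP 18 2 2)) (.lit Jt1.z0)) (.sub (.mul (.lit (unitP 18 2 2)) (.lit [([19], [1])])) (.lit Jt2.dv1_7))).isZero = true := by decide +kernel
theorem hv2_1_7 (S : Sys A) : ((18 : ℕ) : A) * (1 + S.r) ^ 2 * (1 - S.r) ^ 2 * S.e 1 (v2 S 7)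
    = pev S.r (v2 S) Jt2.dv1_7 := by
  have h := l3' q1_7 S.r (v1 S)
  change pev S.r (v1 S) (unitP 18 2 2) * pev S.r (v1 S) Jt1.z0 - (pev S.r (v1 S) (unitP 18 2 2)
    * ((((1 : Int) : A) + S.r * 0) * (v1 S 19 * 1) + 0) - pev S.r (v1 S) Jt2.dv1_7) = 0 at h
  rw [hz0, Y261.BR.pev_unitP S.r _ 18 2 2, agree12 S Jt2.dv1_7 (by decide +kernel), v1_19] at h
  rw [v2_7]
  push_cast at h ⊢
  linear_combination -h

theorem q1_8 : (Ex.sub (.mul (.lit (unitP 1 1 0)) (.lit Jt1.z6)) (.sub (.mul (.lit (unitP 18 2 2)) (.lit [([20], [1])])) (.lit Jt2.dv1_8))).isZero = true := by decide +kernel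
theorem hv2_1_8 (S : Sys A) : ((18 : ℕ) : A) * (1 + S.r) ^ 2 * (1 - S.r) ^ 2 * S.e 1 (v2 S 8)
    = pev S.r (v2 S) Jt2.dv1_8 := by
  have h := l3' q1_8 S.r (v1 S)
  change pev S.r (v1 S) (unitP 1 1 0) * pev S.r (v1 S) Jt1.z6 - (pev S.r (v1 S) (unitP 18 2 2)
    * ((((1 : Int) : A) + S.r * 0) * (v1 S 20 * 1) + 0) - pev S.r (v1 S) Jt2.dv1_8) = 0 at h
  rw [hz6, Y261.BR.pev_unitP S.r _ 18 2 2, agree12 S Jt2.dv1_8 (by decide +kernel), v1_20] at h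
  rw [v2_8]
  push_cast at h ⊢
  linear_combination -h

theorem q1_9 : (Ex.sub (.mul (.lit (unitP 18 2 2)) (.lit [([17], [1])])) (.lit Jt2.dv1_9)).isZero = true := by decide +kernel
theorem hv2_1_9 (S : Sys A) : ((18 : ℕ) : A) * (1 + S.r) ^ 2 * (1 - S.r) ^ 2 * S.e 1 (v2 S 9)
    = pev S.r (v2 S) Jt2.dv1_9 := by
  have h := mulEq q1_9 S.r (v2 S)
  change _ * ((((1 : Int) : A) + S.r * 0) * (v2 S 17 * 1) + 0) = _ at h
  rw [v2_17] at h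
  rw [v2_9]
  push_cast at h ⊢
  linear_combination h

theorem q1_10 : (Ex.sub (.mul (.lit (unitP 18 2 2)) (.lit [([18], [1])])) (.lit Jt2.dv1_10)).isZero = true := by decide +kernel
theorem hv2_1_10 (S : Sys A) : ((18 : ℕ) : A) * (1 + S.r) ^ 2 * (1 - S.r) ^ 2 * S.e 1 (v2 S 10)
    = pev S.r (v2 S) Jt2.dv1_10 := by
  have h := mulEq q1_10 S.r (v2 S)
  change _ * ((((1 : Int) : A) + S.r * 0) * (v2 S 18 * 1) + 0) = _ at h
  rw [v2_18] at h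
  rw [v2_10]
  push_cast at h ⊢
  linear_combination h

theorem q1_11 : (Ex.sub (.mul (.lit (unitP 18 2 2)) (.lit [([19], [1])])) (.lit Jt2.dv1_11)).isZero = true := by decide +kernel
theorem hv2_1_11 (S : Sys A) : ((18 : ℕ) : A) * (1 + S.r) ^ 2 * (1 - S.r) ^ 2 * S.e 1 (v2 S 11)
    = pev S.r (v2 S) Jt2.dv1_11 := by
  have h := mulEq q1_11 S.r (v2 S)
  change _ * ((((1 : Int) : A) + S.r * 0) * (v2 S 19 * 1) + 0) = _ at h
  rw [v2_19] at h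
  rw [v2_11]
  push_cast at h ⊢
  linear_combination h

theorem q1_12 : (Ex.sub (.mul (.lit (unitP 18 2 2)) (.lit [([20], [1])])) (.lit Jt2.dv1_12)).isZero = true := by decide +kernel
theorem hv2_1_12 (S : Sys A) : ((18 : ℕ) : A) * (1 + S.r) ^ 2 * (1 - S.r) ^ 2 * S.e 1 (v2 S 12)
    = pev S.r (v2 S) Jt2.dv1_12 := by
  have h := mulEq q1_12 S.r (v2 S)
  change _ * ((((1 : Int) : A) + S.r * 0) * (v2 S 20 * 1) + 0) = _ at h
  rw [v2_20] at h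
  rw [v2_12]
  push_cast at h ⊢
  linear_combination h

theorem q2_0 : (Ex.sub (.mul (.lit (unitP 1 1 1)) (.lit Jt1.dv2_0)) (.lit Jt2.dv2_0)).isZero = true := by decide +kernel
theorem hv2_2_0 (S : Sys A) : ((18 : ℕ) : A) * (1 + S.r) ^ 2 * (1 - S.r) ^ 2 * S.e 2 (v2 S 0)
    = pev S.r (v2 S) Jt2.dv2_0 := by
  rw [← agree12 S _ (by decide +kernel), ← mulEq q2_0, ← hv1_2_0]
  simp only [v1_0, v2_0]; push_cast; ring

theorem q2_1 : (Ex.sub (.mul (.lit (unitP 1 1 1)) (.lit Jt1.dv2_1)) (.lit Jt2.dv2_1)).isZero = true := by decide +kernel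
theorem hv2_2_1 (S : Sys A) : ((18 : ℕ) : A) * (1 + S.r) ^ 2 * (1 - S.r) ^ 2 * S.e 2 (v2 S 1)
    = pev S.r (v2 S) Jt2.dv2_1 := by
  rw [← agree12 S _ (by decide +kernel), ← mulEq q2_1, ← hv1_2_1]
  simp only [v1_1, v2_1]; push_cast; ring

theorem q2_2 : (Ex.sub (.mul (.lit (unitP 1 1 1)) (.lit Jt1.dv2_2)) (.lit Jt2.dv2_2)).isZero = true := by decide +kernel
theorem hv2_2_2 (S : Sys A) : ((18 : ℕ) : A) * (1 + S.r) ^ 2 * (1 - S.r) ^ 2 * S.e 2 (v2 S 2)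
    = pev S.r (v2 S) Jt2.dv2_2 := by
  rw [← agree12 S _ (by decide +kernel), ← mulEq q2_2, ← hv1_2_2]
  simp only [v1_2, v2_2]; push_cast; ring

theorem q2_3 : (Ex.sub (.mul (.lit (unitP 1 1 1)) (.lit Jt1.dv2_3)) (.lit Jt2.dv2_3)).isZero = true := by decide +kernel
theorem hv2_2_3 (S : Sys A) : ((18 : ℕ) : A) * (1 + S.r) ^ 2 * (1 - S.r) ^ 2 * S.e 2 (v2 S 3)
    = pev S.r (v2 S) Jt2.dv2_3 := by
  rw [← agree12 S _ (by decide +kernel), ← mulEq q2_3, ← hv1_2_3]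
  simp only [v1_3, v2_3]; push_cast; ring

theorem q2_4 : (Ex.sub (.mul (.lit (unitP 1 1 1)) (.lit Jt1.dv2_4)) (.lit Jt2.dv2_4)).isZero = true := by decide +kernel
theorem hv2_2_4 (S : Sys A) : ((18 : ℕ) : A) * (1 + S.r) ^ 2 * (1 - S.r) ^ 2 * S.e 2 (v2 S 4)
    = pev S.r (v2 S) Jt2.dv2_4 := by
  rw [← agree12 S _ (by decide +kernel), ← mulEq q2_4, ← hv1_2_4]
  simp only [v1_4, v2_4]; push_cast; ring

theorem hr2_2 (S : Sys A) : ((18 : ℕ) : A) * (1 + S.r) ^ 2 * (1 - S.r) ^ 2 * S.e 2 S.r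
    = pev S.r (v2 S) Jt2.dr2 := by
  rw [← agree12 S _ (by decide +kernel), ← mulEq drEq2, ← hr1_2]
  push_cast; ring

theorem q2_5 : (Ex.sub (.mul (.lit (unitP 18 2 2)) (.lit Jt1.z3)) (.sub (.mul (.lit (unitP 18 2 2)) (.lit [([21], [1])])) (.lit Jt2.dv2_5))).isZero = true := by decide +kernel
theorem hv2_2_5 (S : Sys A) : ((18 : ℕ) : A) * (1 + S.r) ^ 2 * (1 - S.r) ^ 2 * S.e 2 (v2 S 5)
    = pev S.r (v2 S) Jt2.dv2_5 := by
  have h := l3' q2_5 S.r (v1 S)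
  change pev S.r (v1 S) (unitP 18 2 2) * pev S.r (v1 S) Jt1.z3 - (pev S.r (v1 S) (unitP 18 2 2)
    * ((((1 : Int) : A) + S.r * 0) * (v1 S 21 * 1) + 0) - pev S.r (v1 S) Jt2.dv2_5) = 0 at h
  rw [hz3, Y261.BR.pev_unitP S.r _ 18 2 2, agree12 S Jt2.dv2_5 (by decide +kernel), v1_21] at h
  rw [v2_5]
  push_cast at h ⊢
  linear_combination -h

theorem q2_6 : (Ex.sub (.mul (.lit (unitP 1 0 0)) (.lit Jt1.z9)) (.sub (.mul (.lit (unitP 18 2 2)) (.lit [([22], [1])])) (.lit Jt2.dv2_6))).isZero = true := by decide +kernel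
theorem hv2_2_6 (S : Sys A) : ((18 : ℕ) : A) * (1 + S.r) ^ 2 * (1 - S.r) ^ 2 * S.e 2 (v2 S 6)
    = pev S.r (v2 S) Jt2.dv2_6 := by
  have h := l3' q2_6 S.r (v1 S)
  change pev S.r (v1 S) (unitP 1 0 0) * pev S.r (v1 S) Jt1.z9 - (pev S.r (v1 S) (unitP 18 2 2)
    * ((((1 : Int) : A) + S.r * 0) * (v1 S 22 * 1) + 0) - pev S.r (v1 S) Jt2.dv2_6) = 0 at h
  rw [hz9, Y261.BR.pev_unitP S.r _ 18 2 2, agree12 S Jt2.dv2_6 (by decide +kernel), v1_22] at h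
  rw [v2_6]
  push_cast at h ⊢
  linear_combination -h

theorem q2_7 : (Ex.sub (.mul (.lit (unitP 1 0 0)) (.lit Jt1.z7)) (.sub (.mul (.lit (unitP 18 2 2)) (.lit [([23], [1])])) (.lit Jt2.dv2_7))).isZero = true := by decide +kernel
theorem hv2_2_7 (S : Sys A) : ((18 : ℕ) : A) * (1 + S.r) ^ 2 * (1 - S.r) ^ 2 * S.e 2 (v2 S 7)
    = pev S.r (v2 S) Jt2.dv2_7 := by
  have h := l3' q2_7 S.r (v1 S)
  change pev S.r (v1 S) (unitP 1 0 0) * pev S.r (v1 S) Jt1.z7 - (pev S.r (v1 S) (unitP 18 2 2)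
    * ((((1 : Int) : A) + S.r * 0) * (v1 S 23 * 1) + 0) - pev S.r (v1 S) Jt2.dv2_7) = 0 at h
  rw [hz7, Y261.BR.pev_unitP S.r _ 18 2 2, agree12 S Jt2.dv2_7 (by decide +kernel), v1_23] at h
  rw [v2_7]
  push_cast at h ⊢
  linear_combination -h

theorem q2_8 : (Ex.sub (.mul (.lit (unitP 3 1 0)) (.lit Jt1.z5)) (.sub (.mul (.lit (unitP 18 2 2)) (.lit [([24], [1])])) (.lit Jt2.dv2_8))).isZero = true := by decide +kernel
theorem hv2_2_8 (S : Sys A) : ((18 : ℕ) : A) * (1 + S.r) ^ 2 * (1 - S.r) ^ 2 * S.e 2 (v2 S 8)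
    = pev S.r (v2 S) Jt2.dv2_8 := by
  have h := l3' q2_8 S.r (v1 S)
  change pev S.r (v1 S) (unitP 3 1 0) * pev S.r (v1 S) Jt1.z5 - (pev S.r (v1 S) (unitP 18 2 2)
    * ((((1 : Int) : A) + S.r * 0) * (v1 S 24 * 1) + 0) - pev S.r (v1 S) Jt2.dv2_8) = 0 at h
  rw [hz5, Y261.BR.pev_unitP S.r _ 18 2 2, agree12 S Jt2.dv2_8 (by decide +kernel), v1_24] at h
  rw [v2_8]
  push_cast at h ⊢
  linear_combination -h

theorem q2_9 : (Ex.sub (.mul (.lit (unitP 18 2 2)) (.lit [([21], [1])])) (.lit Jt2.dv2_9)).isZero = true := by decide +kernel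
theorem hv2_2_9 (S : Sys A) : ((18 : ℕ) : A) * (1 + S.r) ^ 2 * (1 - S.r) ^ 2 * S.e 2 (v2 S 9)
    = pev S.r (v2 S) Jt2.dv2_9 := by
  have h := mulEq q2_9 S.r (v2 S)
  change _ * ((((1 : Int) : A) + S.r * 0) * (v2 S 21 * 1) + 0) = _ at h
  rw [v2_21] at h
  rw [v2_9]
  push_cast at h ⊢
  linear_combination h

theorem q2_10 : (Ex.sub (.mul (.lit (unitP 18 2 2)) (.lit [([22], [1])])) (.lit Jt2.dv2_10)).isZero = true := by decide +kernel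
theorem hv2_2_10 (S : Sys A) : ((18 : ℕ) : A) * (1 + S.r) ^ 2 * (1 - S.r) ^ 2 * S.e 2 (v2 S 10)
    = pev S.r (v2 S) Jt2.dv2_10 := by
  have h := mulEq q2_10 S.r (v2 S)
  change _ * ((((1 : Int) : A) + S.r * 0) * (v2 S 22 * 1) + 0) = _ at h
  rw [v2_22] at h
  rw [v2_10]
  push_cast at h ⊢
  linear_combination h

theorem q2_11 : (Ex.sub (.mul (.lit (unitP 18 2 2)) (.lit [([23], [1])])) (.lit Jt2.dv2_11)).isZero = true := by decide +kernel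
theorem hv2_2_11 (S : Sys A) : ((18 : ℕ) : A) * (1 + S.r) ^ 2 * (1 - S.r) ^ 2 * S.e 2 (v2 S 11)
    = pev S.r (v2 S) Jt2.dv2_11 := by
  have h := mulEq q2_11 S.r (v2 S)
  change _ * ((((1 : Int) : A) + S.r * 0) * (v2 S 23 * 1) + 0) = _ at h
  rw [v2_23] at h
  rw [v2_11]
  push_cast at h ⊢
  linear_combination h

theorem q2_12 : (Ex.sub (.mul (.lit (unitP 18 2 2)) (.lit [([24], [1])])) (.lit Jt2.dv2_12)).isZero = true := by decide +kernel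
theorem hv2_2_12 (S : Sys A) : ((18 : ℕ) : A) * (1 + S.r) ^ 2 * (1 - S.r) ^ 2 * S.e 2 (v2 S 12)
    = pev S.r (v2 S) Jt2.dv2_12 := by
  have h := mulEq q2_12 S.r (v2 S)
  change _ * ((((1 : Int) : A) + S.r * 0) * (v2 S 24 * 1) + 0) = _ at h
  rw [v2_24] at h
  rw [v2_12]
  push_cast at h ⊢
  linear_combination h

theorem ht2_0 (S : Sys A) (g : A) : 2 * (1 + S.r) * (1 - S.r) * (S.e 0 (S.e 1 g) - S.e 1 (S.e 0 g))
    = pev S.r (v2 S) Jt2.br0_0 * S.e 0 g + pev S.r (v2 S) Jt2.br0_1 * S.e 1 g + pev S.r (v2 S) Jt2.br0_2 * S.e 2 g := by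
  rw [brEq0_0, brEq0_1, brEq0_2, ← agree12 S Jt1.br0_0 (by decide +kernel), ← agree12 S Jt1.br0_1 (by decide +kernel),
    ← agree12 S Jt1.br0_2 (by decide +kernel)]
  exact ht1_0 S g

theorem ht2_1 (S : Sys A) (g : A) : 2 * (1 + S.r) * (1 - S.r) * (S.e 1 (S.e 2 g) - S.e 2 (S.e 1 g))
    = pev S.r (v2 S) Jt2.br1_0 * S.e 0 g + pev S.r (v2 S) Jt2.br1_1 * S.e 1 g + pev S.r (v2 S) Jt2.br1_2 * S.e 2 g := by
  rw [brEq1_0, brEq1_1, brEq1_2, ← agree12 S Jt1.br1_0 (by decide +kernel), ← agree12 S Jt1.br1_1 (by decide +kernel),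
    ← agree12 S Jt1.br1_2 (by decide +kernel)]
  exact ht1_1 S g

theorem ht2_2 (S : Sys A) (g : A) : 2 * (1 + S.r) * (1 - S.r) * (S.e 2 (S.e 0 g) - S.e 0 (S.e 2 g))
    = pev S.r (v2 S) Jt2.br2_0 * S.e 0 g + pev S.r (v2 S) Jt2.br2_1 * S.e 1 g + pev S.r (v2 S) Jt2.br2_2 * S.e 2 g := by
  rw [brEq2_0, brEq2_1, brEq2_2, ← agree12 S Jt1.br2_0 (by decide +kernel), ← agree12 S Jt1.br2_1 (by decide +kernel),
    ← agree12 S Jt1.br2_2 (by decide +kernel)]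
  exact ht1_2 S g

theorem holds2 (S : Sys A) : Holds Jt2.T S.e S.r (v2 S) where
  qpos := by decide
  apos := by decide
  bpos := by decide
  unit1 := S.unit1
  unit3 := S.unit3
  unitN := S.unitN
  hr := by
    intro l
    fin_cases l
    exacts [hr2_0 S, hr2_1 S, hr2_2 S]
  hv := by
    intro l i hi
    change i < 13 at hi
    fin_cases l
    · interval_cases i
      exacts [hv2_0_0 S, hv2_0_1 S, hv2_0_2 S, hv2_0_3 S, hv2_0_4 S, hv2_0_5 S, hv2_0_6 S, hv2_0_7 S, hv2_0_8 S, hv2_0_9 S, hv2_0_10 S, hv2_0_11 S, hv2_0_12 S]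
    · interval_cases i
      exacts [hv2_1_0 S, hv2_1_1 S, hv2_1_2 S, hv2_1_3 S, hv2_1_4 S, hv2_1_5 S, hv2_1_6 S, hv2_1_7 S, hv2_1_8 S, hv2_1_9 S, hv2_1_10 S, hv2_1_11 S, hv2_1_12 S]
    · interval_cases i
      exacts [hv2_2_0 S, hv2_2_1 S, hv2_2_2 S, hv2_2_3 S, hv2_2_4 S, hv2_2_5 S, hv2_2_6 S, hv2_2_7 S, hv2_2_8 S, hv2_2_9 S, hv2_2_10 S, hv2_2_11 S, hv2_2_12 S]
  tors := by
    intro p hp g
    interval_cases p
    exacts [ht2_0 S g, ht2_1 S g, ht2_2 S g]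

theorem zF (S : Sys A) : pev S.r (v2 S) Dat.nF = 0 := by
  rw [x_nF]; simp only [v2_0, v2_1, v2_2, v2_3, v2_4]
  linear_combination S.frel

theorem zE1 (S : Sys A) : pev S.r (v2 S) Dat.nE1 = 0 :=
  step (holds2 S) Jt2.ckE1 (List.forall_mem_cons.2 ⟨zF S, List.forall_mem_nil _⟩)

theorem zE2 (S : Sys A) : pev S.r (v2 S) Dat.nE2 = 0 :=
  step (holds2 S) Jt2.ckE2 (List.forall_mem_cons.2 ⟨zF S, List.forall_mem_nil _⟩)

theorem zE3 (S : Sys A) : pev S.r (v2 S) Dat.nE3 = 0 :=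
  step (holds2 S) Jt2.ckE3 (List.forall_mem_cons.2 ⟨zF S, List.forall_mem_nil _⟩)

theorem zX1 (S : Sys A) : pev S.r (v2 S) Dat.nX1 = 0 :=
  step (holds2 S) Jt2.ckX1 (List.forall_mem_cons.2 ⟨zE1 S, List.forall_mem_cons.2 ⟨zE2 S, List.forall_mem_cons.2 ⟨zE3 S, List.forall_mem_nil _⟩⟩⟩)

theorem zX2 (S : Sys A) : pev S.r (v2 S) Dat.nX2 = 0 :=
  step (holds2 S) Jt2.ckX2 (List.forall_mem_cons.2 ⟨zE1 S, List.forall_mem_cons.2 ⟨zE2 S, List.forall_mem_cons.2 ⟨zE3 S, List.forall_mem_nil _⟩⟩⟩)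

theorem zX3 (S : Sys A) : pev S.r (v2 S) Dat.nX3 = 0 :=
  step (holds2 S) Jt2.ckX3 (List.forall_mem_cons.2 ⟨zE1 S, List.forall_mem_cons.2 ⟨zE2 S, List.forall_mem_cons.2 ⟨zE3 S, List.forall_mem_nil _⟩⟩⟩)

theorem zRt (S : Sys A) : pev S.r (v2 S) Dat.nRt = 0 :=
  step (holds2 S) Jt2.ckRt (List.forall_mem_cons.2 ⟨zE1 S, List.forall_mem_cons.2 ⟨zE2 S, List.forall_mem_cons.2 ⟨zE3 S, List.forall_mem_nil _⟩⟩⟩)

theorem zRa (S : Sys A) : pev S.r (v2 S) Dat.nRa = 0 :=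
  step (holds2 S) Jt2.ckRa (List.forall_mem_cons.2 ⟨zE1 S, List.forall_mem_cons.2 ⟨zE2 S, List.forall_mem_cons.2 ⟨zE3 S, List.forall_mem_nil _⟩⟩⟩)

theorem zG1 (S : Sys A) : pev S.r (v2 S) Jt2.nG1 = 0 :=
  step (holds2 S) Jt2.ckG1 (List.forall_mem_cons.2 ⟨zRt S, List.forall_mem_nil _⟩)

theorem zG2 (S : Sys A) : pev S.r (v2 S) Jt2.nG2 = 0 :=
  step (holds2 S) Jt2.ckG2 (List.forall_mem_cons.2 ⟨zRt S, List.forall_mem_nil _⟩)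

theorem zG3 (S : Sys A) : pev S.r (v2 S) Jt2.nG3 = 0 :=
  step (holds2 S) Jt2.ckG3 (List.forall_mem_cons.2 ⟨zRt S, List.forall_mem_nil _⟩)

theorem zDa2 (S : Sys A) : pev S.r (v2 S) Dat.nDa2 = 0 :=
  step (holds2 S) Jt2.ckDa2 (List.forall_mem_cons.2 ⟨zRa S, List.forall_mem_nil _⟩)

theorem zWtt (S : Sys A) : pev S.r (v2 S) Dat.nWtt = 0 :=
  step (holds2 S) Jt2.ckWtt (List.forall_mem_cons.2 ⟨zG1 S, List.forall_mem_cons.2 ⟨zG2 S, List.forall_mem_cons.2 ⟨zG3 S, List.forall_mem_nil _⟩⟩⟩)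

end

end Y493.Br.Glue
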