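import Pool.Agent.Y493.Br.Gl1
import Pool.Agent.Y493.Br.Dat2

set_option autoImplicit false
set_option maxRecDepth 100000

/-!
The shifted equations.
-/

namespace Y493.Br.Glue

open Y493.Br.Refl Y493.Br.Pk Y493.Br.Jet Y493.Br.Cert

def sf (i : Nat) : Nat := bif Nat.blt 4 i && Nat.blt i 9 then i + 8 else i

def L0 : Po := decP 4 [6, 2, 151, 99, 1, 6, 14, 2, 121]
def L1 : Po := decP 4 [98, 1, 6, 7, 2, 151, 15, 2, 121]
def L2 : Po := decP 4 [8, 2, 151, 130, 1, 10, 16, 2, 121]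
def L3 : Po := decP 5 [9, 2, 559, 131, 1, 12, 17, 2, 497]
theorem x_L0 {A : Type} [CommRing A] (r : A) (v : Nat → A) :
    pev r v L0 = ((-1) + 1 * r) * v 5 + ((-2)) * v 2 * v 2 + (1 + (-1) * r) * v 13 := by
  rw [show L0 = [([5], [-1, 1]), ([2, 2], [-2]), ([13], [1, -1])] from by decide +kernel]
  simp only [pev, cev, mev]; push_cast; ring

theorem x_L1 {A : Type} [CommRing A] (r : A) (v : Nat → A) :
    pev r v L1 = ((-2)) * v 1 * v 2 + ((-1) + 1 * r) * v 6 + (1 + (-1) * r) * v 14 := by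
  rw [show L1 = [([1, 2], [-2]), ([6], [-1, 1]), ([14], [1, -1])] from by decide +kernel]
  simp only [pev, cev, mev]; push_cast; ring

theorem x_L2 {A : Type} [CommRing A] (r : A) (v : Nat → A) :
    pev r v L2 = ((-1) + 1 * r) * v 7 + (2) * v 1 * v 3 + (1 + (-1) * r) * v 15 := by
  rw [show L2 = [([7], [-1, 1]), ([1, 3], [2]), ([15], [1, -1])] from by decide +kernel]
  simp only [pev, cev, mev]; push_cast; ring

theorem x_L3 {A : Type} [CommRing A] (r : A) (v : Nat → A) :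
    pev r v L3 = ((-1) + 1 * r) * v 8 + ((-4)) * v 2 * v 3 + (1 + (-1) * r) * v 16 := by
  rw [show L3 = [([8], [-1, 1]), ([2, 3], [-4]), ([16], [1, -1])] from by decide +kernel]
  simp only [pev, cev, mev]; push_cast; ring

theorem shE1 : (Ex.sub (.mul (.lit (renP sf Dat2.nE1)) (.lit (unitP (1) 0 1)))
  (sumLins [Dat.nE1, L0, L1, L2, L3, Dat.nF]
  [(decP 3 [0, 1, 5], 0), (decP 9 [3, 4, 0x894026d48], 1), (decP 7 [2, 2, 11739], 2), (decP 9 [5, 3, 0x44a2548], 3), (decP 8 [4, 3, 0x9b80ad], 4)])).isZero = true := by decide +kernel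

theorem shE2 : (Ex.sub (.mul (.lit (renP sf Dat2.nE2)) (.lit (unitP (1) 0 1)))
  (sumLins [Dat.nE2, L0, L1, L2, L3, Dat.nF]
  [(decP 3 [0, 1, 5], 0), (decP 6 [4, 4, 0x69a596], 1), (decP 6 [5, 4, 0x8a4aa8], 2), (decP 5 [2, 2, 330], 3), (decP 6 [3, 4, 0x8a09a8], 4)])).isZero = true := by decide +kernel

theorem shE3 : (Ex.sub (.mul (.lit (renP sf Dat2.nE3)) (.lit (unitP (1) 0 1)))
  (sumLins [Dat.nE3, L0, L1, L2, L3, Dat.nF]
  [(decP 3 [0, 2, 29], 0), (decP 9 [5, 5, 0xee7732a2548], 1), (decP 8 [4, 4, 0x9b9badad], 2), (decP 9 [3, 4, 0x894026d48], 3), (decP 7 [2, 3, 614491], 4)])).isZero = true := by decide +kernel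

theorem shRt : (Ex.sub (.mul (.lit (renP sf Dat2.nRt)) (.lit (unitP (2) 0 2)))
  (sumLins [Dat.nRt, L0, L1, L2, L3, Dat.nF]
  [(decP 7 [0, 1, 82], 0), (decP 21 [0, 9, 0x10144080a2040510202880f9ac07cd6040f3020798100000, 1, 7, 0x3fa4e1fd27102d90816c83fa4e1fd27100000, 66, 7, 0x3fa4e1fd270fa4e07d27041c7a20e3d100000, 6, 8, 0x7f49c3fa4e1f1c30f8e187ddd43eeea219a110cd08, 99, 8, 0x816c840b64213ef1044587d2704cd082a803120bf8, 14, 8, 0x7f49c3fa4e1f1c30f8e187ddd43eeea219a110cd08, 132, 7, 0x3d8221ec110e65f0732f848e6224731100000, 165, 8, 0x7e938400001ec110fe9387d2704ef34225050c59f8], 1), (decP 20 [98, 6, 0x7e9387ddd4871e89f530a7de0905fc, 7, 6, 0x7d2707a4e07a4e080000888b085b20, 15, 6, 0x7d2707a4e07a4e080000888b085b20, 164, 7, 0x888b08c1a49e9cc871e8760886cc7462cfc], 2), (decP 20 [8, 6, 0x7e9387e938777507775089f7889f78, 130, 5, 0x70568732f84e2a85f40893ef0, 16, 6, 0x7e9387e938777507775089f7889f78, 163, 7, 0x82d9082d90888b0888b0749c0749c080000],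 3), (decP 20 [9, 6, 0x7d27080000800007a4e082d9085b20, 162, 6, 0x816c88668471c30955b88cd08643c4, 131, 7, 0x888b084fbc8c1a4a39889282884fbc86684, 17, 6, 0x7d27080000800007a4e082d9085b20], 4), (decP 15 [0, 11, 0xfffa0004032800103ca0003e8a8000fd6200040fc, 1, 9, 0x40098000fe9a0003e11800113220003d78, 66, 7, 0xff960003fca8000fb5e000417a, 99, 9, 0x401280b4fca1faaba607b812be2148bb6e, 14, 8, 0x7f290001f5e400087990001ef24000, 132, 9, 0x401b8000f40e0003a3c8f30fbee9b42eab, 165, 9, 0x40127f4d0145f553fa68264d206dbf3076], 5)])).isZero = true := by decide +kernel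

theorem shRa : (Ex.sub (.mul (.lit (renP sf Dat2.nRa)) (.lit (unitP (2) 0 2)))
  (sumLins [Dat.nRa, L0, L1, L2, L3, Dat.nF]
  [(decP 7 [0, 1, 82], 0), (decP 22 [0, 10, 0x7f7241fdc907e7f41f9fd084aac212ab07d63c1f58f080000200000, 1, 8, 0x816c8205b20816c8205b2078e181e386084458211160, 66, 8, 0x805b22016c87ec111fb04476bec1dafb08a251228944, 6, 9, 0x2016c8805b21f60887d8221e219878866226718899c6200000, 99, 9, 0x1fd270827de1fe9388779a21282869932245c48ba0562623e8, 14, 9, 0x2016c8805b21f60887d8221e219878866226718899c6200000, 132, 8, 0x874c121d30483bcd20ef347f1c31fc70c75daf1d76bc, 165, 9, 0x202d908334221b0d89393e245c488556e13a16863e122623e8], 1), (decP 21 [98, 7, 0x3f49c204458e163476bec50bae24e4f8f5524, 7, 7, 0x402d9202d90f6bec7bba842ab720e3d0fddd4, 15, 7, 0x402d9202d90f6bec7bba842ab720e3d0fddd4, 164, 8, 0x7bba83ad6b1a4e00baf1c7e9383d549271e8164614], 2), (decP 21 [8, 7, 0x405b2202d90f77507bba841c7a20e3d100000, 130,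 6, 0x238f4119a10705683c70c1d8220ddd40, 16, 7, 0x405b2202d90f77507bba841c7a20e3d100000, 163, 8, 0x7e9383f49c1ccbe0e65f067cb833e5c299c614ce30], 3), (decP 21 [9, 7, 0x402d9200000f55247a4e041f53216c810222c, 162, 7, 0x40b6420cd092a00ca44ec38866161f48f10cc, 131, 8, 0x7bba840e3d1dafb104fbc8e3d03dafb2b36715bd64, 17, 7, 0x402d9200000f55247a4e041f53216c810222c], 4), (decP 16 [0, 12, 0x800280007fa480007e5480007ca880008d1a800078448000, 1, 10, 0x7ff780008117800082fd800076e5800085108000, 66, 8, 0x801b80007fe58000877d800078838000, 99, 10, 0x7fee7fa682527ca98750746f74d2acaf819e6293, 14, 9, 0x806c80007e1a80007682800096fe800073fa, 132, 10, 0x7fe580008627800085a970d07f55887067769440, 165, 10, 0x7fee805a812983c3876b7a458fb763c55a47ab59], 5)])).isZero = true := by decide +kernel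


theorem combZero {Z : List Po} {l : List (Po × Nat)} {c : Int} {a b : Nat} {P : Po}
    (h : (Ex.sub (.mul (.lit P) (.lit (unitP c a b))) (sumLins Z l)).isZero = true)
    (r : ℝ) (v : Nat → ℝ) (hZ : ∀ P ∈ Z, pev r v P = 0) (hc : c ≠ 0) (h1 : 1 + r ≠ 0)
    (h3 : 1 - r ≠ 0) : pev r v P = 0 := by
  have h4 := l3' h r v
  change pev r v P * pev r v (unitP c a b) - (sumLins Z l).sem r v = 0 at h4
  rw [Y261.BR.pev_unitP, Y261.BR.sem_sumLins Z hZ, sub_zero] at h4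
  have h5 : ((c : ℝ) * (1 + r) ^ a * (1 - r) ^ b) ≠ 0 := by
    have : (c : ℝ) ≠ 0 := by exact_mod_cast hc
    exact mul_ne_zero (mul_ne_zero this (pow_ne_zero _ h1)) (pow_ne_zero _ h3)
  exact (mul_eq_zero.mp h4).resolve_right h5


theorem shift (r : ℝ) (h0 : -1 < r) (h1 : r < 1) (w : Nat → ℝ)
    (hF : pev r w Dat.nF = 0) (hE1 : pev r w Dat.nE1 = 0) (hE2 : pev r w Dat.nE2 = 0)
    (hE3 : pev r w Dat.nE3 = 0) (hRt : pev r w Dat.nRt = 0) (hRa : pev r w Dat.nRa = 0) :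
    ∃ w' : Nat → ℝ, w' 0 = w 0 ∧ pev r w' Dat.nF = 0 ∧ pev r w' Dat2.nE1 = 0 ∧
      pev r w' Dat2.nE2 = 0 ∧ pev r w' Dat2.nE3 = 0 ∧ pev r w' Dat2.nRt = 0 ∧
      pev r w' Dat2.nRa = 0 := by
  have hp : (1 : ℝ) + r ≠ 0 := by linarith
  have hm : (1 : ℝ) - r ≠ 0 := by linarith
  let y0 : ℝ := w 5 + 2 * w 2 * w 2 / (1 - r)
  let y1 : ℝ := w 6 + 2 * w 1 * w 2 / (1 - r)
  let y2 : ℝ := w 7 - 2 * w 1 * w 3 / (1 - r)
  let y3 : ℝ := w 8 + 4 * w 2 * w 3 / (1 - r)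
  let w3 : Nat → ℝ := fun i => ([w 0, w 1, w 2, w 3, w 4, w 5, w 6, w 7, w 8, w 9, w 10, w 11,
    w 12, y0, y1, y2, y3] : List ℝ).getD i 0
  have ag : ∀ P : Po, ltP 13 P = true → pev r w P = 0 → pev r w3 P = 0 := by
    intro P hP hw
    rw [← hw]
    refine (pev_agree r w w3 13 ?_ P hP).symm
    intro i hi
    interval_cases i <;> rfl
  have e0 : pev r w3 L0 = 0 := by
    rw [x_L0]
    change (-1 + 1 * r) * w 5 + -2 * w 2 * w 2 + (1 + -1 * r) * y0 = 0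
    simp only [y0]; field_simp; ring
  have e1 : pev r w3 L1 = 0 := by
    rw [x_L1]
    change -2 * w 1 * w 2 + (-1 + 1 * r) * w 6 + (1 + -1 * r) * y1 = 0
    simp only [y1]; field_simp; ring
  have e2 : pev r w3 L2 = 0 := by
    rw [x_L2]
    change (-1 + 1 * r) * w 7 + 2 * w 1 * w 3 + (1 + -1 * r) * y2 = 0
    simp only [y2]; field_simp; ring
  have e3 : pev r w3 L3 = 0 := by
    rw [x_L3]
    change (-1 + 1 * r) * w 8 + -4 * w 2 * w 3 + (1 + -1 * r) * y3 = 0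
    simp only [y3]; field_simp; ring
  have f0 := ag Dat.nF (by decide +kernel) hF
  have g1 := ag Dat.nE1 (by decide +kernel) hE1
  have g2 := ag Dat.nE2 (by decide +kernel) hE2
  have g3 := ag Dat.nE3 (by decide +kernel) hE3
  have g4 := ag Dat.nRt (by decide +kernel) hRt
  have g5 := ag Dat.nRa (by decide +kernel) hRa
  have mm : ∀ P : Po, pev r w3 P = 0 → ∀ Q ∈ [P, L0, L1, L2, L3, Dat.nF], pev r w3 Q = 0 := by
    intro P hP
    exact List.forall_mem_cons.2 ⟨hP, List.forall_mem_cons.2 ⟨e0, List.forall_mem_cons.2 ⟨e1,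
      List.forall_mem_cons.2 ⟨e2, List.forall_mem_cons.2 ⟨e3, List.forall_mem_cons.2 ⟨f0,
      List.forall_mem_nil _⟩⟩⟩⟩⟩⟩
  refine ⟨fun i => w3 (sf i), rfl, ?_, ?_, ?_, ?_, ?_, ?_⟩
  · rw [← pev_ren, show renP sf Dat.nF = Dat.nF from by decide +kernel]; exact f0
  · rw [← pev_ren]; exact combZero shE1 r w3 (mm _ g1) (by decide) hp hm
  · rw [← pev_ren]; exact combZero shE2 r w3 (mm _ g2) (by decide) hp hm
  · rw [← pev_ren]; exact combZero shE3 r w3 (mm _ g3) (by decide) hp hm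
  · rw [← pev_ren]; exact combZero shRt r w3 (mm _ g4) (by decide) hp hm
  · rw [← pev_ren]; exact combZero shRa r w3 (mm _ g5) (by decide) hp hm

end Y493.Br.Glue
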