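import Pool.Agent.Y493.Br.Pk

set_option autoImplicit false

/-!
Derivation of consequences in a differential ring by checked steps.
-/

namespace Y493.Br.Jet

open Y493.Br.Refl Y493.Br.Pk

/-- number of occurrences of a variable -/
def cntM (i : Nat) : Mo → Nat
  | [] => 0
  | j :: m => bif Nat.beq i j then Nat.succ (cntM i m) else cntM i m

/-- remove one occurrence -/
def rmM (i : Nat) : Mo → Mo
  | [] => []
  | j :: m => bif Nat.beq i j then m else j :: rmM i m

/-- partial derivative with respect to variable `i` -/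
def pdv (i : Nat) : Po → Po
  | [] => []
  | t :: P => match cntM i t.1 with
    | 0 => pdv i P
    | k + 1 => (rmM i t.1, csmul (Int.ofNat (k + 1)) t.2) :: pdv i P

/-- partial derivative with respect to `r` -/
def pdr : Po → Po
  | [] => []
  | t :: P => (t.1, cder t.2) :: pdr P

/-- total derivative as an expression; variables below `n` -/
def derEx (dr : Po) (dv : Nat → Po) (P : Po) : Nat → Ex
  | 0 => .mul (.lit (pdr P)) (.lit dr)
  | n + 1 => .add (.mul (.lit (pdv n P)) (.lit (dv n))) (derEx dr dv P n)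

def ltM (n : Nat) : Mo → Bool
  | [] => true
  | i :: m => Nat.blt i n && ltM n m

/-- all variables are below `n` -/
def ltP (n : Nat) : Po → Bool
  | [] => true
  | t :: P => ltM n t.1 && ltP n P

/-- the polynomial `c (1 + r)^a (1 - r)^b` -/
def unitP (c : Int) (a b : Nat) : Po :=
  [([], cmul [c] (cmul (cpow [1, 1] a) (cpow [1, -1] b)))]

/-- tables of a differential system: `dr l`, `dv l i` are the derivatives of `r` and of the
variables `i < n` in direction `l` (0, 1, 2) with respect to `Q • e l`, `Q = q (1+r)^a (1-r)^b`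
(`q > 0`, `a, b > 0`); `br p m` are the numerators of the bracket relation of pair `p`
(pair 0 = (0,1), 1 = (1,2), 2 = (2,0)):
`2 (1+r) (1-r) (e i (e j g) - e j (e i g)) = sum_m br p m * e m g`. -/
structure Tab where
  n : Nat
  q : Nat
  a : Nat
  b : Nat
  dr : Nat → Po
  dv : Nat → Nat → Po
  br : Nat → Nat → Po

def Tab.Q (T : Tab) : Po := unitP (Int.ofNat T.q) T.a T.b

def fstI (p : Nat) : Nat := match p with
  | 0 => 0
  | 1 => 1
  | _ => 2

def sndI (p : Nat) : Nat := match p with
  | 0 => 1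
  | 1 => 2
  | _ => 0

def Tab.der (T : Tab) (l : Nat) (P : Po) : Ex := derEx (T.dr l) (T.dv l) P T.n

/-- the bracket relation of pair `p` applied to variable `k`, as an expression that vanishes:
`Q (d_i d_j g - d_j d_i g) - (d_i Q) (d_j g) + (d_j Q) (d_i g) - Q^2/(2 (1+r)(1-r)) sum_m br m d_m g`
where `d = Q e`; everything multiplied by 2 -/
def Tab.tors (T : Tab) (p k : Nat) : Ex :=
  let i := fstI p
  let j := sndI p
  .sub
    (.add
      (.mul (.lit (unitP (2 * Int.ofNat T.q) T.a T.b))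
        (.sub (T.der i (T.dv j k)) (T.der j (T.dv i k))))
      (.sub (.mul (.mul (.lit (unitP 2 0 0)) (T.der j T.Q)) (.lit (T.dv i k)))
        (.mul (.mul (.lit (unitP 2 0 0)) (T.der i T.Q)) (.lit (T.dv j k)))))
    (.mul (.lit (unitP (Int.ofNat T.q * Int.ofNat T.q) (T.a + T.a - 1) (T.b + T.b - 1)))
      (.add (.mul (.lit (T.br p 0)) (.lit (T.dv 0 k)))
        (.add (.mul (.lit (T.br p 1)) (.lit (T.dv 1 k)))
          (.mul (.lit (T.br p 2)) (.lit (T.dv 2 k))))))

/-- one step: `cu (1+r)^a (1-r)^b * tgt` equals the sum of `coef * d_l (N_s)` over `ders`,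
`coef * tors p k` over `tors`, and `coef * N_s` over `lins`; `N_s` the known zeros -/
structure Step where
  cu : Int
  a : Nat
  b : Nat
  tgt : Po
  ders : List (Po × Nat × Nat)
  tors : List (Po × Nat × Nat)
  lins : List (Po × Nat)

def sumDers (T : Tab) (Z : List Po) : List (Po × Nat × Nat) → Ex
  | [] => .lit []
  | d :: l => .add (.mul (.lit d.1) (T.der d.2.1 (Z.getD d.2.2 []))) (sumDers T Z l)

def sumTors (T : Tab) : List (Po × Nat × Nat) → Ex
  | [] => .lit []
  | d :: l => .add (.mul (.lit d.1) (T.tors d.2.1 d.2.2)) (sumTors T l)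

def sumLins (Z : List Po) : List (Po × Nat) → Ex
  | [] => .lit []
  | d :: l => .add (.mul (.lit d.1) (.lit (Z.getD d.2 []))) (sumLins Z l)

def okDers (T : Tab) (Z : List Po) : List (Po × Nat × Nat) → Bool
  | [] => true
  | d :: l => Nat.blt d.2.1 3 && (ltP T.n (Z.getD d.2.2 []) && okDers T Z l)

def okTors (T : Tab) : List (Po × Nat × Nat) → Bool
  | [] => true
  | d :: l => Nat.blt d.2.1 3 && (Nat.blt d.2.2 T.n &&
      (ltP T.n (T.dv (fstI d.2.1) d.2.2) && (ltP T.n (T.dv (sndI d.2.1) d.2.2) && okTors T l)))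

def Step.check (T : Tab) (Z : List Po) (s : Step) : Bool :=
  (bif Int.natAbs s.cu == 0 then false else true) &&
  (okDers T Z s.ders && (okTors T s.tors &&
  (Ex.sub (.mul (.lit (unitP s.cu s.a s.b)) (.lit s.tgt))
    (.add (sumDers T Z s.ders) (.add (sumTors T s.tors) (sumLins Z s.lins)))).isZero))

/-- the tables hold in a ring with derivations -/
structure Holds (T : Tab) {A : Type} [CommRing A] (e : Fin 3 → Derivation ℤ A A) (r : A)
    (v : Nat → A) : Prop where
  qpos : 0 < T.q
  apos : 0 < T.a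
  bpos : 0 < T.b
  unit1 : IsUnit (1 + r)
  unit3 : IsUnit (1 - r)
  unitN : ∀ n : ℕ, 0 < n → IsUnit (n : A)
  hr : ∀ l : Fin 3, (T.q : A) * (1 + r) ^ T.a * (1 - r) ^ T.b * e l r = pev r v (T.dr l)
  hv : ∀ l : Fin 3, ∀ i, i < T.n →
    (T.q : A) * (1 + r) ^ T.a * (1 - r) ^ T.b * e l (v i) = pev r v (T.dv l i)
  tors : ∀ p, p < 3 → ∀ g : A,
    2 * (1 + r) * (1 - r) * (e (Fin.ofNat 3 (fstI p)) (e (Fin.ofNat 3 (sndI p)) g)
      - e (Fin.ofNat 3 (sndI p)) (e (Fin.ofNat 3 (fstI p)) g))
    = pev r v (T.br p 0) * e 0 g + pev r v (T.br p 1) * e 1 g + pev r v (T.br p 2) * e 2 g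

/-- JOB BR-L4: soundness of one step -/
def StL4 : Prop :=
  StL3 → ∀ (T : Tab) (A : Type) [CommRing A] (e : Fin 3 → Derivation ℤ A A) (r : A)
    (v : Nat → A), Holds T e r v →
    ∀ (Z : List Po) (s : Step), (∀ P ∈ Z, pev r v P = 0) → s.check T Z = true →
    pev r v s.tgt = 0

end Y493.Br.Jet
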