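import Mathlib

set_option autoImplicit false

/-!
Interface statements for the local Chern conjecture in the four sphere
(every local minimal hypersurface of the unit four sphere with constant scalar curvature
is isoparametric).  Geometry side: principal frame, structure equations, ring of smooth
functions with three derivations.  Algebra side: `DA`.
-/

namespace Y493.Br

open scoped BigOperators

abbrev E3 := EuclideanSpace ℝ (Fin 3)
abbrev E5 := EuclideanSpace ℝ (Fin 5)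

/-- The hypotheses of the problem, with the constant `c` for the squared length fixed. -/
structure Hyp (U : Set E3) (f ν : E3 → E5) (S : E3 → Matrix (Fin 3) (Fin 3) ℝ) (c : ℝ) :
    Prop where
  isOpen : IsOpen U
  conn : IsConnected U
  smf : ContDiffOn ℝ ((⊤ : ℕ∞) : WithTop ℕ∞) f U
  smν : ContDiffOn ℝ ((⊤ : ℕ∞) : WithTop ℕ∞) ν U
  inj : ∀ x ∈ U, Function.Injective (fderiv ℝ f x)
  normf : ∀ x ∈ U, ‖f x‖ = 1
  normν : ∀ x ∈ U, ‖ν x‖ = 1 ∧ inner ℝ (f x) (ν x) = 0 ∧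
      ∀ i : Fin 3, inner ℝ (fderiv ℝ f x (EuclideanSpace.single i (1 : ℝ))) (ν x) = 0
  shape : ∀ x ∈ U, S x =
      (Matrix.of (fun (i : Fin 3) (j : Fin 3) =>
        inner ℝ (fderiv ℝ f x (EuclideanSpace.single i (1 : ℝ)))
          (fderiv ℝ f x (EuclideanSpace.single j (1 : ℝ)))))⁻¹ *
      Matrix.of (fun (i : Fin 3) (j : Fin 3) =>
        -inner ℝ (fderiv ℝ f x (EuclideanSpace.single i (1 : ℝ)))
          (fderiv ℝ ν x (EuclideanSpace.single j (1 : ℝ))))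
  tr1 : ∀ x ∈ U, Matrix.trace (S x) = 0
  tr2 : ∀ x ∈ U, Matrix.trace (S x * S x) = c

/-- A smooth orthonormal frame of principal directions on the open set `V`, with three distinct
principal curvatures `lam 2 < lam 1 < lam 0`. -/
structure PFrame (V : Set E3) (f ν : E3 → E5) (c : ℝ) (E : Fin 3 → E3 → E3)
    (lam : Fin 3 → E3 → ℝ) : Prop where
  isOpen : IsOpen V
  smf : ContDiffOn ℝ ((⊤ : ℕ∞) : WithTop ℕ∞) f V
  smν : ContDiffOn ℝ ((⊤ : ℕ∞) : WithTop ℕ∞) ν V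
  smE : ∀ i, ContDiffOn ℝ ((⊤ : ℕ∞) : WithTop ℕ∞) (E i) V
  smlam : ∀ i, ContDiffOn ℝ ((⊤ : ℕ∞) : WithTop ℕ∞) (lam i) V
  inj : ∀ x ∈ V, Function.Injective (fderiv ℝ f x)
  normf : ∀ x ∈ V, inner ℝ (f x) (f x) = (1 : ℝ)
  normν : ∀ x ∈ V, inner ℝ (ν x) (ν x) = (1 : ℝ)
  perp : ∀ x ∈ V, inner ℝ (f x) (ν x) = (0 : ℝ)
  tang : ∀ x ∈ V, ∀ v : E3, inner ℝ (fderiv ℝ f x v) (ν x) = (0 : ℝ)
  orth : ∀ x ∈ V, ∀ i j, inner ℝ (fderiv ℝ f x (E i x)) (fderiv ℝ f x (E j x))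
    = if i = j then (1 : ℝ) else 0
  wein : ∀ x ∈ V, ∀ i, fderiv ℝ ν x (E i x) = -(lam i x) • fderiv ℝ f x (E i x)
  lt21 : ∀ x ∈ V, lam 2 x < lam 1 x
  lt10 : ∀ x ∈ V, lam 1 x < lam 0 x
  sum0 : ∀ x ∈ V, lam 0 x + lam 1 x + lam 2 x = 0
  sumsq : ∀ x ∈ V, lam 0 x ^ 2 + lam 1 x ^ 2 + lam 2 x ^ 2 = c

/-- JOB BR-G1.  Near a point where the trace of the cube has nonzero derivative there is a
principal frame. -/
def StG1 : Prop :=
  ∀ (U : Set E3) (f ν : E3 → E5) (S : E3 → Matrix (Fin 3) (Fin 3) ℝ) (c : ℝ),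
    Hyp U f ν S c → ∀ x0 ∈ U,
    fderiv ℝ (fun x => Matrix.trace (S x * S x * S x)) x0 ≠ 0 →
    ∃ (V : Set E3) (E : Fin 3 → E3 → E3) (lam : Fin 3 → E3 → ℝ),
      x0 ∈ V ∧ V ⊆ U ∧ PFrame V f ν c E lam ∧
      ∀ x ∈ V, Matrix.trace (S x * S x * S x) = lam 0 x ^ 3 + lam 1 x ^ 3 + lam 2 x ^ 3

/-- derivative of a function in the direction of a vector field -/
noncomputable def dv (X : E3 → E3) (g : E3 → ℝ) : E3 → ℝ := fun x => fderiv ℝ g x (X x)

/-- connection coefficients of the frame -/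
noncomputable def Gam (f : E3 → E5) (E : Fin 3 → E3 → E3) (i j k : Fin 3) : E3 → ℝ :=
  fun x => inner ℝ (fderiv ℝ (fun y => fderiv ℝ f y (E j y)) x (E i x))
    (fderiv ℝ f x (E k x))

/-- the structure equations on `V` -/
structure SEq (V : Set E3) (E : Fin 3 → E3 → E3) (lam : Fin 3 → E3 → ℝ)
    (G : Fin 3 → Fin 3 → Fin 3 → E3 → ℝ) : Prop where
  smG : ∀ i j k, ContDiffOn ℝ ((⊤ : ℕ∞) : WithTop ℕ∞) (G i j k) V
  anti : ∀ x ∈ V, ∀ i j k, G i j k x = - G i k j x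
  tors : ∀ (g : E3 → ℝ), ContDiffOn ℝ ((⊤ : ℕ∞) : WithTop ℕ∞) g V → ∀ x ∈ V, ∀ i j,
    dv (E i) (dv (E j) g) x - dv (E j) (dv (E i) g) x
      = ∑ k, (G i j k x - G j i k x) * dv (E k) g x
  cod : ∀ x ∈ V, ∀ i j k,
    (if j = k then dv (E i) (lam j) x else 0) + (lam j x - lam k x) * G i j k x
      = (if i = k then dv (E j) (lam i) x else 0) + (lam i x - lam k x) * G j i k x
  gauss : ∀ x ∈ V, ∀ i j k l,
    dv (E i) (G j k l) x - dv (E j) (G i k l) x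
      + ∑ m, (G j k m x * G i m l x - G i k m x * G j m l x)
      - ∑ m, (G i j m x - G j i m x) * G m k l x
      = (1 + lam i x * lam j x) *
        ((if j = k ∧ i = l then 1 else 0) - (if i = k ∧ j = l then 1 else 0))

/-- JOB BR-G2.  A principal frame satisfies the structure equations. -/
def StG2 : Prop :=
  ∀ (V : Set E3) (f ν : E3 → E5) (c : ℝ) (E : Fin 3 → E3 → E3) (lam : Fin 3 → E3 → ℝ),
    PFrame V f ν c E lam → SEq V E lam (Gam f E)

/-- Differential algebra of a minimal hypersurface with constant scalar curvature: a commutative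
real algebra with three derivations, principal curvatures and connection coefficients. -/
structure DA (A : Type) [CommRing A] [Algebra ℝ A] where
  e : Fin 3 → Derivation ℝ A A
  lam : Fin 3 → A
  G : Fin 3 → Fin 3 → Fin 3 → A
  c : ℝ
  iD : Fin 3 → A
  sum0 : lam 0 + lam 1 + lam 2 = 0
  sumsq : lam 0 ^ 2 + lam 1 ^ 2 + lam 2 ^ 2 = algebraMap ℝ A c
  inv0 : iD 0 * (lam 1 - lam 2) = 1
  inv1 : iD 1 * (lam 2 - lam 0) = 1
  inv2 : iD 2 * (lam 0 - lam 1) = 1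
  anti : ∀ i j k, G i j k = - G i k j
  tors : ∀ i j (g : A), e i (e j g) - e j (e i g) = ∑ k, (G i j k - G j i k) * e k g
  cod : ∀ i j k,
    (if j = k then e i (lam j) else 0) + (lam j - lam k) * G i j k
      = (if i = k then e j (lam i) else 0) + (lam i - lam k) * G j i k
  gauss : ∀ i j k l,
    e i (G j k l) - e j (G i k l) + ∑ m, (G j k m * G i m l - G i k m * G j m l)
      - ∑ m, (G i j m - G j i m) * G m k l
      = (1 + lam i * lam j) *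
        ((if j = k ∧ i = l then 1 else 0) - (if i = k ∧ j = l then 1 else 0))

/-- THE ALGEBRAIC MAIN THEOREM (owner): at every real point with `lam 2 < lam 1 < lam 0` and
`0 < lam 1` the derivative of `lam 1` vanishes. -/
def StA : Prop :=
  ∀ (A : Type) [CommRing A] [Algebra ℝ A] (D : DA A) (ev : A →ₐ[ℝ] ℝ),
    ev (D.lam 2) < ev (D.lam 1) → ev (D.lam 1) < ev (D.lam 0) → 0 < ev (D.lam 1) →
    ∀ k, ev (D.e k (D.lam 1)) = 0

/-- JOB BR-G3.  The smooth functions on `V` form such a differential algebra, so the algebraic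
main theorem gives the vanishing of the derivatives of the middle principal curvature. -/
def StG3 : Prop :=
  StA → ∀ (V : Set E3) (c : ℝ) (E : Fin 3 → E3 → E3) (lam : Fin 3 → E3 → ℝ)
    (G : Fin 3 → Fin 3 → Fin 3 → E3 → ℝ),
    IsOpen V →
    (∀ i, ContDiffOn ℝ ((⊤ : ℕ∞) : WithTop ℕ∞) (E i) V) →
    (∀ i, ContDiffOn ℝ ((⊤ : ℕ∞) : WithTop ℕ∞) (lam i) V) →
    (∀ x ∈ V, lam 2 x < lam 1 x) → (∀ x ∈ V, lam 1 x < lam 0 x) →
    (∀ x ∈ V, lam 0 x + lam 1 x + lam 2 x = 0) →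
    (∀ x ∈ V, lam 0 x ^ 2 + lam 1 x ^ 2 + lam 2 x ^ 2 = c) →
    SEq V E lam G →
    ∀ x ∈ V, 0 < lam 1 x → ∀ k, dv (E k) (lam 1) x = 0

/-- the frozen statement -/
def StFinal : Prop :=
  ∀ (U : Set (EuclideanSpace ℝ (Fin 3)))
    (f ν : EuclideanSpace ℝ (Fin 3) → EuclideanSpace ℝ (Fin 5))
    (S : EuclideanSpace ℝ (Fin 3) → Matrix (Fin 3) (Fin 3) ℝ),
    IsOpen U → IsConnected U →
    ContDiffOn ℝ ((⊤ : ℕ∞) : WithTop ℕ∞) f U →
    ContDiffOn ℝ ((⊤ : ℕ∞) : WithTop ℕ∞) ν U →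
    (∀ x ∈ U, Function.Injective (fderiv ℝ f x)) →
    (∀ x ∈ U, ‖f x‖ = 1) →
    (∀ x ∈ U, ‖ν x‖ = 1 ∧ inner ℝ (f x) (ν x) = 0 ∧
      ∀ i : Fin 3, inner ℝ (fderiv ℝ f x (EuclideanSpace.single i (1 : ℝ))) (ν x) = 0) →
    (∀ x ∈ U, S x =
      (Matrix.of (fun (i : Fin 3) (j : Fin 3) =>
        inner ℝ (fderiv ℝ f x (EuclideanSpace.single i (1 : ℝ)))
          (fderiv ℝ f x (EuclideanSpace.single j (1 : ℝ)))))⁻¹ *
      Matrix.of (fun (i : Fin 3) (j : Fin 3) =>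
        -inner ℝ (fderiv ℝ f x (EuclideanSpace.single i (1 : ℝ)))
          (fderiv ℝ ν x (EuclideanSpace.single j (1 : ℝ))))) →
    (∀ x ∈ U, Matrix.trace (S x) = 0) →
    (∃ c : ℝ, ∀ x ∈ U, Matrix.trace (S x * S x) = c) →
    ∃ d : ℝ, ∀ x ∈ U, Matrix.trace (S x * S x * S x) = d

/-- JOB BR-G4.  Assembly. -/
def StG4 : Prop := StG1 → StG2 → StG3 → StA → StFinal

end Y493.Br
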